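import Mathlib

/-!
# Averaged differences
-/

set_option autoImplicit false

open scoped ENNReal Topology
open Set MeasureTheory Filter Metric

namespace Pool.Agent.H761R2.Besov

/-- Euclidean space -/
abbrev EE (n : ℕ) := EuclideanSpace ℝ (Fin n)

/-- the annulus -/
def Ann (n : ℕ) : Set (EE n) := {y | 1 / 2 < ‖y‖ ∧ ‖y‖ ≤ 1}

lemma measurableSet_Ann (n : ℕ) : MeasurableSet (Ann n) :=
  (measurableSet_lt measurable_const measurable_norm).inter
    (measurableSet_le measurable_norm measurable_const)

lemma volume_Ann_ne_top (n : ℕ) : volume (Ann n) ≠ ⊤ := by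
  have h : Ann n ⊆ closedBall 0 1 := by
    intro y hy
    simpa using hy.2
  exact ne_top_of_le_ne_top (isCompact_closedBall (0 : EE n) 1).measure_lt_top.ne (measure_mono h)

lemma volume_Ann_pos (n : ℕ) [NeZero n] : volume (Ann n) ≠ 0 := by
  have hopen : IsOpen {y : EE n | 1 / 2 < ‖y‖ ∧ ‖y‖ < 1} :=
    (isOpen_lt continuous_const continuous_norm).inter (isOpen_lt continuous_norm continuous_const)
  have hne : {y : EE n | 1 / 2 < ‖y‖ ∧ ‖y‖ < 1}.Nonempty := by
    refine ⟨(3 / 4 : ℝ) • EuclideanSpace.single (0 : Fin n) (1 : ℝ), ?_⟩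
    simp only [mem_ofPred_eq, norm_smul, PiLp.norm_single, Real.norm_eq_abs]
    norm_num [abs_of_pos]
  have h := hopen.measure_pos volume hne
  intro h0
  have : volume {y : EE n | 1 / 2 < ‖y‖ ∧ ‖y‖ < 1} ≤ volume (Ann n) :=
    measure_mono fun y hy => ⟨hy.1, hy.2.le⟩
  rw [h0] at this
  exact absurd h (not_lt.2 this)

/-- normalising constant -/
noncomputable def κi (n : ℕ) : ℝ≥0∞ := (volume (Ann n))⁻¹

lemma κi_ne_top (n : ℕ) [NeZero n] : κi n ≠ ⊤ := ENNReal.inv_ne_top.2 (volume_Ann_pos n)

/-- normalised Lebesgue measure on the annulus -/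
noncomputable def lam (n : ℕ) : Measure (EE n) := κi n • volume.restrict (Ann n)

instance (n : ℕ) [NeZero n] : IsProbabilityMeasure (lam n) := by
  constructor
  unfold lam κi
  rw [Measure.smul_apply, Measure.restrict_apply_univ, smul_eq_mul]
  exact ENNReal.inv_mul_cancel (volume_Ann_pos n) (volume_Ann_ne_top n)

/-- change of variables in a ball average -/
lemma avg_le (n : ℕ) (g : EE n → ℝ≥0∞) (hg : Measurable g) (x : EE n) {c : ℝ} (hc : 0 < c) :
    ∫⁻ y, g (x + c • y) ∂(lam n) ≤
      κi n * (ENNReal.ofReal (c ^ n))⁻¹ * ∫⁻ y in closedBall x c, g y := by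
  unfold lam
  rw [lintegral_smul_measure, smul_eq_mul, mul_assoc]
  gcongr
  have hfin : Module.finrank ℝ (EE n) = n := by simp
  have h1 : ∫⁻ y in Ann n, g (x + c • y) ≤
      ∫⁻ y, (closedBall x c).indicator g (x + c • y) := by
    rw [← lintegral_indicator (measurableSet_Ann n)]
    apply lintegral_mono
    intro y
    by_cases hy : y ∈ Ann n
    · have hb : x + c • y ∈ closedBall x c := by
        rw [mem_closedBall, dist_eq_norm, add_sub_cancel_left, norm_smul, Real.norm_eq_abs,
          abs_of_pos hc]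
        have := mul_le_mul_of_nonneg_left hy.2 hc.le
        linarith
      simp only [indicator_of_mem hy, indicator_of_mem hb]
      exact le_rfl
    · simp only [indicator_of_notMem hy]
      exact zero_le
  refine h1.trans (le_of_eq ?_)
  have hgm : Measurable ((closedBall x c).indicator g) := hg.indicator measurableSet_closedBall
  have h2 : ∫⁻ y : EE n, (closedBall x c).indicator g (x + c • y) =
      ∫⁻ y, (closedBall x c).indicator g (x + y) ∂(Measure.map (fun y : EE n => c • y) volume) := by
    have hgm2 : Measurable (fun y => (closedBall x c).indicator g (x + y)) :=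
      hgm.comp (measurable_const_add x)
    rw [lintegral_map hgm2 (measurable_const_smul c)]
  rw [h2, Measure.map_addHaar_smul volume hc.ne', lintegral_smul_measure, smul_eq_mul,
    lintegral_add_left_eq_self, lintegral_indicator measurableSet_closedBall, hfin,
    abs_of_pos (by positivity), ENNReal.ofReal_inv_of_pos (by positivity)]

/-- alternating difference of order `k` -/
noncomputable def dl {n : ℕ} (k : ℕ) (h : EE n) (f : EE n → ℝ) (x : EE n) : ℝ :=
  ∑ j ∈ Finset.range (k + 1), (-1) ^ j * (k.choose j : ℝ) * f (x + (j : ℝ) • h)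

/-- continuous and bounded functions -/
def Nice {n : ℕ} (f : EE n → ℝ) : Prop := Continuous f ∧ ∃ C : ℝ, 0 ≤ C ∧ ∀ x, |f x| ≤ C

lemma sum_choose_real (k : ℕ) : ∑ j ∈ Finset.range (k + 1), (k.choose j : ℝ) = 2 ^ k := by
  have := Nat.sum_range_choose k
  exact_mod_cast this

lemma dl_continuous {n : ℕ} (k : ℕ) {f : EE n → ℝ} (hf : Continuous f) :
    Continuous (fun p : EE n × EE n => dl k p.1 f p.2) := by
  unfold dl
  fun_prop

lemma dl_bound {n : ℕ} (k : ℕ) (h : EE n) {f : EE n → ℝ} {C : ℝ} (hC : ∀ x, |f x| ≤ C)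
    (x : EE n) : |dl k h f x| ≤ 2 ^ k * C := by
  unfold dl
  calc |∑ j ∈ Finset.range (k + 1), (-1) ^ j * (k.choose j : ℝ) * f (x + (j : ℝ) • h)|
      ≤ ∑ j ∈ Finset.range (k + 1), |(-1) ^ j * (k.choose j : ℝ) * f (x + (j : ℝ) • h)| :=
        Finset.abs_sum_le_sum_abs _ _
    _ ≤ ∑ j ∈ Finset.range (k + 1), (k.choose j : ℝ) * C := by
        apply Finset.sum_le_sum
        intro j _
        rw [abs_mul, abs_mul, abs_pow, abs_neg, abs_one, one_pow, one_mul, Nat.abs_cast]
        exact mul_le_mul_of_nonneg_left (hC _) (by positivity)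
    _ = 2 ^ k * C := by rw [← Finset.sum_mul, sum_choose_real]

/-- averaged difference -/
noncomputable def GG {n : ℕ} (k : ℕ) (t : ℝ) (f : EE n → ℝ) (x : EE n) : ℝ :=
  ∫ y, dl k (t • y) f x ∂(lam n)

lemma dl_integrable {n : ℕ} [NeZero n] (k : ℕ) (t : ℝ) {f : EE n → ℝ} (hf : Nice f) (x : EE n) :
    Integrable (fun y => dl k (t • y) f x) (lam n) := by
  obtain ⟨hc, C, hC0, hC⟩ := hf
  apply Integrable.of_bound _ (2 ^ k * C)
  · exact Eventually.of_forall fun y => dl_bound k _ hC x
  · apply Continuous.aestronglyMeasurable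
    exact (dl_continuous k hc).comp (by fun_prop : Continuous fun y : EE n => (t • y, x))

lemma GG_nice {n : ℕ} [NeZero n] (k : ℕ) (t : ℝ) {f : EE n → ℝ} (hf : Nice f) :
    Nice (GG k t f) := by
  obtain ⟨hc, C, hC0, hC⟩ := hf
  refine ⟨?_, 2 ^ k * C, by positivity, ?_⟩
  · unfold GG
    apply continuous_of_dominated (bound := fun _ => 2 ^ k * C)
    · intro x
      exact (dl_integrable k t ⟨hc, C, hC0, hC⟩ x).aestronglyMeasurable
    · intro x
      exact Eventually.of_forall fun y => dl_bound k _ hC x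
    · exact integrable_const _
    · refine Eventually.of_forall fun y => ?_
      exact (dl_continuous k hc).comp (by fun_prop : Continuous fun x : EE n => (t • y, x))
  · intro x
    unfold GG
    have := norm_integral_le_of_norm_le_const (μ := lam n) (C := 2 ^ k * C)
      (f := fun y => dl k (t • y) f x) (Eventually.of_forall fun y => dl_bound k _ hC x)
    simpa using this

lemma nice_add {n : ℕ} {f g : EE n → ℝ} (hf : Nice f) (hg : Nice g) :
    Nice (fun x => f x + g x) := by
  obtain ⟨hc, C, hC0, hC⟩ := hf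
  obtain ⟨hc', C', hC0', hC'⟩ := hg
  refine ⟨hc.add hc', C + C', by positivity, fun x => ?_⟩
  exact (abs_add_le _ _).trans (add_le_add (hC x) (hC' x))

lemma nice_comp_integrable {n : ℕ} [NeZero n] {f : EE n → ℝ} (hf : Nice f) (x : EE n) (c : ℝ) :
    Integrable (fun y => f (x + c • y)) (lam n) := by
  obtain ⟨hc, C, hC0, hC⟩ := hf
  apply Integrable.of_bound _ C
  · exact Eventually.of_forall fun y => hC _
  · exact (hc.comp (by fun_prop : Continuous fun y : EE n => x + c • y)).aestronglyMeasurable

lemma GG_add {n : ℕ} [NeZero n] (k : ℕ) (t : ℝ) {f g : EE n → ℝ} (hf : Nice f) (hg : Nice g)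
    (x : EE n) : GG k t (fun x => f x + g x) x = GG k t f x + GG k t g x := by
  unfold GG
  rw [← integral_add (dl_integrable k t hf x) (dl_integrable k t hg x)]
  congr 1
  funext y
  unfold dl
  rw [← Finset.sum_add_distrib]
  apply Finset.sum_congr rfl
  intro j _
  ring

lemma GG_comm {n : ℕ} [NeZero n] (k : ℕ) (t s : ℝ) {f : EE n → ℝ} (hf : Nice f) (x : EE n) :
    GG k t (GG k s f) x = GG k s (GG k t f) x := by
  have key : ∀ a b : ℝ, GG k a (GG k b f) x = ∫ y, ∫ z, dl k (a • y) (dl k (b • z) f) x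
      ∂(lam n) ∂(lam n) := by
    intro a b
    show ∫ y, dl k (a • y) (GG k b f) x ∂(lam n) = _
    congr 1
    funext y
    have e1 : dl k (a • y) (GG k b f) x = ∑ j ∈ Finset.range (k + 1),
        (-1) ^ j * (k.choose j : ℝ) * ∫ z, dl k (b • z) f (x + (j : ℝ) • a • y) ∂(lam n) := rfl
    have e2 : ∀ z, dl k (a • y) (dl k (b • z) f) x = ∑ j ∈ Finset.range (k + 1),
        (-1) ^ j * (k.choose j : ℝ) * dl k (b • z) f (x + (j : ℝ) • a • y) := fun z => rfl
    rw [e1]
    simp_rw [e2]
    rw [integral_finsetSum _ (fun j _ => (dl_integrable k b hf _).const_mul _)]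
    apply Finset.sum_congr rfl
    intro j _
    rw [integral_const_mul]
  rw [key t s, key s t, integral_integral_swap]
  · congr 1
    funext z
    congr 1
    funext y
    unfold dl
    simp_rw [Finset.mul_sum]
    rw [Finset.sum_comm]
    apply Finset.sum_congr rfl
    intro i _
    apply Finset.sum_congr rfl
    intro j _
    rw [add_right_comm]
    ring
  · obtain ⟨hc, C, hC0, hC⟩ := hf
    apply Integrable.of_bound _ (2 ^ k * (2 ^ k * C))
    · refine Eventually.of_forall fun p => ?_
      exact dl_bound k _ (dl_bound k _ hC) x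
    · apply Continuous.aestronglyMeasurable
      unfold Function.uncurry dl
      fun_prop

end Pool.Agent.H761R2.Besov
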