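import Pool.Agent.H761R2.Besov.Avg

/-!
# Duality estimate
-/

set_option autoImplicit false

open scoped ENNReal Topology
open Set MeasureTheory Filter Metric

namespace Pool.Agent.H761R2.Besov

lemma sum_choose_succ_le (k : ℕ) : ∑ j ∈ Finset.range k, (k.choose (j + 1) : ℝ≥0∞) ≤ 2 ^ k := by
  have h : ∑ j ∈ Finset.range k, k.choose (j + 1) ≤ 2 ^ k := by
    rw [← Nat.sum_range_choose k, Finset.sum_range_succ']
    omega
  exact_mod_cast h

lemma smooth_bound {n : ℕ} [NeZero n] (k : ℕ) {t : ℝ} (ht : 0 < t) {w : EE n → ℝ} (hw : Nice w)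
    (x : EE n) : ‖w x - GG k t w x‖ₑ ≤
      2 ^ k * (κi n * (ENNReal.ofReal (t ^ n))⁻¹ * ∫⁻ y in closedBall x (k * t), ‖w y‖ₑ) := by
  have h1 : w x - GG k t w x = ∫ y, (w x - dl k (t • y) w x) ∂(lam n) := by
    rw [integral_sub (integrable_const _) (dl_integrable k t hw x)]
    simp [GG]
  rw [h1]
  refine (enorm_integral_le_lintegral_enorm _).trans ?_
  have h2 : ∀ y : EE n, ‖w x - dl k (t • y) w x‖ₑ ≤
      ∑ j ∈ Finset.range k, (k.choose (j + 1) : ℝ≥0∞) * ‖w (x + (((j : ℝ) + 1) * t) • y)‖ₑ := by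
    intro y
    have e : w x - dl k (t • y) w x = ∑ j ∈ Finset.range k,
        ((-1) ^ j * (k.choose (j + 1) : ℝ) * w (x + (((j : ℝ) + 1) * t) • y)) := by
      unfold dl
      rw [Finset.sum_range_succ']
      simp only [pow_zero, Nat.choose_zero_right, Nat.cast_one, Nat.cast_zero, zero_smul, add_zero,
        one_mul, Nat.cast_add]
      rw [sub_add_eq_sub_sub, sub_right_comm, sub_self, zero_sub, ← Finset.sum_neg_distrib]
      apply Finset.sum_congr rfl
      intro j _
      rw [smul_smul, pow_succ]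
      ring
    rw [e]
    refine (enorm_sum_le _ _).trans (le_of_eq ?_)
    apply Finset.sum_congr rfl
    intro j _
    rw [enorm_mul, enorm_mul, enorm_pow, enorm_neg, enorm_one, one_pow, one_mul]
    congr 1
    rw [← ofReal_norm, Real.norm_natCast, ENNReal.ofReal_natCast]
  have hwm : Measurable (fun y => ‖w y‖ₑ) := hw.1.measurable.enorm
  calc ∫⁻ y, ‖w x - dl k (t • y) w x‖ₑ ∂(lam n)
      ≤ ∫⁻ y, ∑ j ∈ Finset.range k, (k.choose (j + 1) : ℝ≥0∞) *
          ‖w (x + (((j : ℝ) + 1) * t) • y)‖ₑ ∂(lam n) := lintegral_mono h2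
    _ = ∑ j ∈ Finset.range k, (k.choose (j + 1) : ℝ≥0∞) *
          ∫⁻ y, ‖w (x + (((j : ℝ) + 1) * t) • y)‖ₑ ∂(lam n) := by
        rw [lintegral_finsetSum]
        · apply Finset.sum_congr rfl
          intro j _
          rw [lintegral_const_mul]
          exact hwm.comp (by fun_prop : Measurable fun y : EE n => x + (((j : ℝ) + 1) * t) • y)
        · intro j _
          exact (hwm.comp
            (by fun_prop : Measurable fun y : EE n => x + (((j : ℝ) + 1) * t) • y)).const_mul _
    _ ≤ ∑ j ∈ Finset.range k, (k.choose (j + 1) : ℝ≥0∞) *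
          (κi n * (ENNReal.ofReal (t ^ n))⁻¹ * ∫⁻ y in closedBall x (k * t), ‖w y‖ₑ) := by
        apply Finset.sum_le_sum
        intro j hj
        have hj' : j + 1 ≤ k := Finset.mem_range.1 hj
        have hj2 : (j : ℝ) + 1 ≤ k := by exact_mod_cast hj'
        have hj0 : (1 : ℝ) ≤ (j : ℝ) + 1 := by linarith [(Nat.cast_nonneg j : (0 : ℝ) ≤ j)]
        gcongr
        refine (avg_le n _ hwm x (by positivity)).trans ?_
        gcongr
        · nlinarith
    _ ≤ _ := by
        rw [← Finset.sum_mul]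
        gcongr
        exact sum_choose_succ_le k

/-- approximation of order `k` -/
noncomputable def RR {n : ℕ} (k : ℕ) (t : ℝ) (f : EE n → ℝ) (x : EE n) : ℝ :=
  f x - GG k t (GG k t f) x

lemma RR_sub {n : ℕ} [NeZero n] (k : ℕ) (s t : ℝ) {f : EE n → ℝ} (hf : Nice f) (x : EE n) :
    RR k s f x - RR k t f x =
      ((GG k t f x + GG k s f x) - GG k s (fun x => GG k t f x + GG k s f x) x) -
      ((GG k t f x + GG k s f x) - GG k t (fun x => GG k t f x + GG k s f x) x) := by
  rw [GG_add k s (GG_nice k t hf) (GG_nice k s hf), GG_add k t (GG_nice k t hf) (GG_nice k s hf),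
    GG_comm k s t hf]
  unfold RR
  ring

lemma RR_sub_bound {n : ℕ} [NeZero n] (k : ℕ) {s t : ℝ} (hs : 0 < s) (hst : s ≤ t)
    {f : EE n → ℝ} (hf : Nice f) (x : EE n) :
    ‖RR k s f x - RR k t f x‖ₑ ≤ 2 * (2 ^ k * (κi n * (ENNReal.ofReal (s ^ n))⁻¹ *
      ∫⁻ y in closedBall x (k * t), ‖GG k t f y + GG k s f y‖ₑ)) := by
  rw [RR_sub k s t hf]
  have hw := nice_add (GG_nice k t hf) (GG_nice k s hf)
  refine (enorm_sub_le).trans ?_
  rw [two_mul]
  apply add_le_add
  · refine (smooth_bound k hs hw x).trans ?_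
    gcongr
  · refine (smooth_bound k (hs.trans_le hst) hw x).trans ?_
    gcongr

lemma int_ball {n : ℕ} (μ : Measure (EE n)) [SFinite μ] (g : EE n → ℝ≥0∞) (hg : Measurable g)
    (ρ : ℝ) : ∫⁻ x, (∫⁻ y in closedBall x ρ, g y) ∂μ = ∫⁻ y, g y * μ (closedBall y ρ) := by
  have hS : MeasurableSet {p : EE n × EE n | dist p.2 p.1 ≤ ρ} :=
    (isClosed_le (by fun_prop) continuous_const).measurableSet
  have h1 : ∀ x, ∫⁻ y in closedBall x ρ, g y =
      ∫⁻ y, ({p : EE n × EE n | dist p.2 p.1 ≤ ρ}).indicator (fun p => g p.2) (x, y) := by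
    intro x
    rw [← lintegral_indicator measurableSet_closedBall]
    congr 1
  rw [lintegral_congr h1, lintegral_lintegral_swap]
  · congr 1
    funext y
    have h2 : ∀ x, ({p : EE n × EE n | dist p.2 p.1 ≤ ρ}).indicator (fun p => g p.2) (x, y) =
        (closedBall y ρ).indicator (fun _ => g y) x := by
      intro x
      by_cases h : dist y x ≤ ρ
      · rw [indicator_of_mem (by exact h), indicator_of_mem (by rw [mem_closedBall, dist_comm]; exact h)]
      · rw [indicator_of_notMem (by exact h),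
          indicator_of_notMem (by rw [mem_closedBall, dist_comm]; exact h)]
    rw [lintegral_congr h2, lintegral_indicator measurableSet_closedBall, setLIntegral_const]
  · apply Measurable.aemeasurable
    exact (hg.comp measurable_snd).indicator hS

lemma measurable_ball {n : ℕ} (μ : Measure (EE n)) [SFinite μ] (ρ : ℝ) :
    Measurable (fun y => μ (closedBall y ρ)) := by
  have hS : MeasurableSet {p : EE n × EE n | dist p.2 p.1 ≤ ρ} :=
    (isClosed_le (by fun_prop) continuous_const).measurableSet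
  exact measurable_measure_prodMk_left hS

/-- averaged `L^p` size of the differences at scale `t` -/
noncomputable def DD {n : ℕ} (k : ℕ) (t p : ℝ) (u : EE n → ℝ) : ℝ≥0∞ :=
  ∫⁻ z, (∫⁻ y, ‖dl k (t • z) u y‖ₑ ^ p) ^ (1 / p) ∂(lam n)

lemma GG_dual {n : ℕ} [NeZero n] (k : ℕ) (t : ℝ) {p p' : ℝ} (hp : p.HolderConjugate p')
    {u : EE n → ℝ} (hu : Nice u) (β : EE n → ℝ≥0∞) (hβ : Measurable β) :
    ∫⁻ y, ‖GG k t u y‖ₑ * β y ≤ DD k t p u * (∫⁻ y, β y ^ p') ^ (1 / p') := by
  have hcont : Continuous (fun q : EE n × EE n => dl k (t • q.2) u q.1) :=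
    (dl_continuous k hu.1).comp (by fun_prop : Continuous fun q : EE n × EE n => (t • q.2, q.1))
  calc ∫⁻ y, ‖GG k t u y‖ₑ * β y
      ≤ ∫⁻ y, (∫⁻ z, ‖dl k (t • z) u y‖ₑ * β y ∂(lam n)) := by
        apply lintegral_mono
        intro y
        beta_reduce
        rw [lintegral_mul_const]
        · gcongr
          exact enorm_integral_le_lintegral_enorm _
        · exact (hcont.comp (by fun_prop : Continuous fun z : EE n => (y, z))).measurable.enorm
    _ = ∫⁻ z, (∫⁻ y, ‖dl k (t • z) u y‖ₑ * β y) ∂(lam n) := by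
        rw [lintegral_lintegral_swap]
        exact (hcont.measurable.enorm.mul (hβ.comp measurable_fst)).aemeasurable
    _ ≤ ∫⁻ z, (∫⁻ y, ‖dl k (t • z) u y‖ₑ ^ p) ^ (1 / p) * (∫⁻ y, β y ^ p') ^ (1 / p')
        ∂(lam n) := by
        apply lintegral_mono
        intro z
        have hm : Measurable (fun y => ‖dl k (t • z) u y‖ₑ) :=
          (hcont.comp (by fun_prop : Continuous fun y : EE n => (y, z))).measurable.enorm
        exact ENNReal.lintegral_mul_le_Lp_mul_Lq volume hp hm.aemeasurable hβ.aemeasurable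
    _ = _ := by
        rw [lintegral_mul_const]
        · rfl
        · apply Measurable.pow_const
          have : Measurable (fun q : EE n × EE n => ‖dl k (t • q.1) u q.2‖ₑ ^ p) :=
            ((dl_continuous k hu.1).comp
              (by fun_prop : Continuous fun q : EE n × EE n =>
                (t • q.1, q.2))).measurable.enorm.pow_const _
          exact this.lintegral_prod_right'

end Pool.Agent.H761R2.Besov
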