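import Pool.Agent.H761R2.Besov.Semi

/-!
# The telescoping estimate
-/

set_option autoImplicit false

open scoped ENNReal Topology
open Set MeasureTheory Filter Metric

namespace Pool.Agent.H761R2.Besov

/-- `L^p` norm -/
noncomputable def Lp' {n : ℕ} (p : ℝ) (u : EE n → ℝ) : ℝ≥0∞ := (∫⁻ y, ‖u y‖ₑ ^ p) ^ (1 / p)

/-- mass on balls -/
noncomputable def Nm {n : ℕ} (k : ℕ) (p' : ℝ) (μ : Measure (EE n)) (t : ℝ) : ℝ≥0∞ :=
  (∫⁻ y, μ (closedBall y (k * t)) ^ p') ^ (1 / p')

lemma lintegral_indicator_rpow {n : ℕ} (x : EE n) (ρ : ℝ) {p' : ℝ} (hp' : 0 < p') :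
    ∫⁻ y, ((closedBall x ρ).indicator (fun _ => (1 : ℝ≥0∞)) y) ^ p' =
      volume (closedBall (0 : EE n) ρ) := by
  have h : ∀ y, ((closedBall x ρ).indicator (fun _ => (1 : ℝ≥0∞)) y) ^ p' =
      (closedBall x ρ).indicator (fun _ => (1 : ℝ≥0∞)) y := by
    intro y
    by_cases hy : y ∈ closedBall x ρ
    · rw [indicator_of_mem hy, ENNReal.one_rpow]
    · rw [indicator_of_notMem hy, ENNReal.zero_rpow_of_pos hp']
  simp_rw [h]
  rw [lintegral_indicator measurableSet_closedBall, setLIntegral_const, one_mul,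
    Measure.addHaar_closedBall_center]

lemma RR_one_bound {n : ℕ} [NeZero n] (k : ℕ) {p p' : ℝ} (hp : p.HolderConjugate p')
    {u : EE n → ℝ} (hu : Nice u) (x : EE n) :
    ‖RR k 1 u x‖ₑ ≤ 2 ^ k * (κi n * volume (closedBall (0 : EE n) k) ^ (1 / p')) *
      (Lp' p u + DD k 1 p u) := by
  have hp'0 : 0 < p' := hp.symm.pos
  have e : RR k 1 u x = (u x - GG k 1 u x) + (GG k 1 u x - GG k 1 (GG k 1 u) x) := by
    unfold RR; ring
  have h1 := smooth_bound k one_pos hu x
  have h2 := smooth_bound k one_pos (GG_nice k 1 hu) x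
  simp only [one_pow, ENNReal.ofReal_one, inv_one, mul_one] at h1 h2
  have hconv : ∀ g : EE n → ℝ≥0∞, ∫⁻ y in closedBall x k, g y =
      ∫⁻ y, g y * (closedBall x (k : ℝ)).indicator (fun _ => (1 : ℝ≥0∞)) y := by
    intro g
    rw [← lintegral_indicator measurableSet_closedBall]
    congr 1
    funext y
    by_cases hy : y ∈ closedBall x (k : ℝ)
    · rw [indicator_of_mem hy, indicator_of_mem hy, mul_one]
    · rw [indicator_of_notMem hy, indicator_of_notMem hy, mul_zero]
  have hβ : Measurable ((closedBall x (k : ℝ)).indicator (fun _ => (1 : ℝ≥0∞))) :=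
    measurable_const.indicator measurableSet_closedBall
  have h3 : ∫⁻ y in closedBall x k, ‖u y‖ₑ ≤
      Lp' p u * volume (closedBall (0 : EE n) k) ^ (1 / p') := by
    rw [hconv]
    have := ENNReal.lintegral_mul_le_Lp_mul_Lq volume hp hu.1.measurable.enorm.aemeasurable
      hβ.aemeasurable
    rw [lintegral_indicator_rpow x k hp'0] at this
    exact this
  have h4 : ∫⁻ y in closedBall x k, ‖GG k 1 u y‖ₑ ≤
      DD k 1 p u * volume (closedBall (0 : EE n) k) ^ (1 / p') := by
    rw [hconv]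
    have := GG_dual k 1 hp hu _ hβ
    rw [lintegral_indicator_rpow x k hp'0] at this
    exact this
  rw [e]
  refine (enorm_add_le _ _).trans ?_
  calc ‖u x - GG k 1 u x‖ₑ + ‖GG k 1 u x - GG k 1 (GG k 1 u) x‖ₑ
      ≤ 2 ^ k * (κi n * (Lp' p u * volume (closedBall (0 : EE n) k) ^ (1 / p'))) +
        2 ^ k * (κi n * (DD k 1 p u * volume (closedBall (0 : EE n) k) ^ (1 / p'))) := by
        apply add_le_add
        · refine h1.trans ?_
          gcongr
        · refine h2.trans ?_
          gcongr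
    _ = _ := by ring

lemma step_bound {n : ℕ} [NeZero n] (k : ℕ) {p p' : ℝ} (hp : p.HolderConjugate p')
    (μ : Measure (EE n)) [SFinite μ] {u : EE n → ℝ} (hu : Nice u) {s t : ℝ} (hs : 0 < s)
    (hst : s ≤ t) :
    ∫⁻ x, ‖RR k s u x - RR k t u x‖ₑ ∂μ ≤ 2 * (2 ^ k * (κi n * (ENNReal.ofReal (s ^ n))⁻¹ *
      ((DD k t p u + DD k s p u) * Nm k p' μ t))) := by
  have hw := nice_add (GG_nice k t hu) (GG_nice k s hu)
  have hwm : Measurable (fun y => ‖GG k t u y + GG k s u y‖ₑ) := hw.1.measurable.enorm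
  have hβ := measurable_ball μ (k * t)
  have hin : Measurable (fun x => ∫⁻ y in closedBall x (k * t), ‖GG k t u y + GG k s u y‖ₑ) := by
    have hS : MeasurableSet {p : EE n × EE n | dist p.2 p.1 ≤ k * t} :=
      (isClosed_le (by fun_prop) continuous_const).measurableSet
    have h1 : ∀ x, ∫⁻ y in closedBall x (k * t), ‖GG k t u y + GG k s u y‖ₑ =
        ∫⁻ y, ({p : EE n × EE n | dist p.2 p.1 ≤ k * t}).indicator
          (fun p => ‖GG k t u p.2 + GG k s u p.2‖ₑ) (x, y) := by
      intro x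
      rw [← lintegral_indicator measurableSet_closedBall]
      congr 1
    simp_rw [h1]
    exact ((hwm.comp measurable_snd).indicator hS).lintegral_prod_right'
  calc ∫⁻ x, ‖RR k s u x - RR k t u x‖ₑ ∂μ
      ≤ ∫⁻ x, 2 * (2 ^ k * (κi n * (ENNReal.ofReal (s ^ n))⁻¹ *
        ∫⁻ y in closedBall x (k * t), ‖GG k t u y + GG k s u y‖ₑ)) ∂μ :=
        lintegral_mono fun x => RR_sub_bound k hs hst hu x
    _ = 2 * (2 ^ k * (κi n * (ENNReal.ofReal (s ^ n))⁻¹ *
        ∫⁻ x, (∫⁻ y in closedBall x (k * t), ‖GG k t u y + GG k s u y‖ₑ) ∂μ)) := by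
        rw [lintegral_const_mul _ (by fun_prop), lintegral_const_mul _ (by fun_prop),
          lintegral_const_mul _ hin]
    _ ≤ _ := by
        gcongr
        rw [int_ball μ _ hwm]
        calc ∫⁻ y, ‖GG k t u y + GG k s u y‖ₑ * μ (closedBall y (k * t))
            ≤ ∫⁻ y, (‖GG k t u y‖ₑ * μ (closedBall y (k * t)) +
                ‖GG k s u y‖ₑ * μ (closedBall y (k * t))) := by
              apply lintegral_mono
              intro y
              beta_reduce
              rw [← add_mul]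
              gcongr
              exact enorm_add_le _ _
          _ = (∫⁻ y, ‖GG k t u y‖ₑ * μ (closedBall y (k * t))) +
                ∫⁻ y, ‖GG k s u y‖ₑ * μ (closedBall y (k * t)) := by
              rw [lintegral_add_left]
              exact (GG_nice k t hu).1.measurable.enorm.mul hβ
          _ ≤ DD k t p u * Nm k p' μ t + DD k s p u * Nm k p' μ t :=
              add_le_add (GG_dual k t hp hu _ hβ) (GG_dual k s hp hu _ hβ)
          _ = _ := by rw [add_mul]

/-- normalised sizes of the differences -/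
noncomputable def am {n : ℕ} (k : ℕ) (α p : ℝ) (u : EE n → ℝ) (m : ℕ) : ℝ≥0∞ :=
  (ENNReal.ofReal (tm m ^ α))⁻¹ * DD k (tm m) p u

/-- normalised sizes of the measure -/
noncomputable def bm {n : ℕ} (k : ℕ) (α p' : ℝ) (μ : Measure (EE n)) (m : ℕ) : ℝ≥0∞ :=
  ENNReal.ofReal (tm m ^ α) * (ENNReal.ofReal (tm m ^ n))⁻¹ * Nm k p' μ (tm m)

lemma step_bound' {n : ℕ} [NeZero n] (k : ℕ) {p p' : ℝ} (hp : p.HolderConjugate p')
    (μ : Measure (EE n)) [SFinite μ] {u : EE n → ℝ} (hu : Nice u) {α : ℝ} (hα : 0 < α) (m : ℕ) :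
    ∫⁻ x, ‖RR k (tm (m + 1)) u x - RR k (tm m) u x‖ₑ ∂μ ≤ (2 * 2 ^ k * κi n * 2 ^ n) *
      ((am k α p u m + am k α p u (m + 1)) * bm k α p' μ m) := by
  have htm := tm_pos m
  have hle : tm (m + 1) ≤ tm m := by rw [tm_succ]; linarith
  refine (step_bound k hp μ hu (tm_pos (m + 1)) hle).trans ?_
  have h1 : (ENNReal.ofReal (tm (m + 1) ^ n))⁻¹ = 2 ^ n * (ENNReal.ofReal (tm m ^ n))⁻¹ := by
    rw [tm_succ, div_pow, ENNReal.ofReal_div_of_pos (by positivity), ENNReal.div_eq_inv_mul,
      ENNReal.mul_inv (by left; simp) (by left; simp), inv_inv, ENNReal.ofReal_pow (by norm_num)]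
    simp
  have hpos : ENNReal.ofReal (tm m ^ α) ≠ 0 := by
    rw [Ne, ENNReal.ofReal_eq_zero, not_le]; positivity
  have h2 : DD k (tm m) p u = ENNReal.ofReal (tm m ^ α) * am k α p u m := by
    unfold am
    rw [← mul_assoc, ENNReal.mul_inv_cancel hpos ENNReal.ofReal_ne_top, one_mul]
  have hpos' : ENNReal.ofReal (tm (m + 1) ^ α) ≠ 0 := by
    have := tm_pos (m + 1)
    rw [Ne, ENNReal.ofReal_eq_zero, not_le]; positivity
  have h3 : DD k (tm (m + 1)) p u ≤ ENNReal.ofReal (tm m ^ α) * am k α p u (m + 1) := by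
    calc DD k (tm (m + 1)) p u = ENNReal.ofReal (tm (m + 1) ^ α) * am k α p u (m + 1) := by
          unfold am
          rw [← mul_assoc, ENNReal.mul_inv_cancel hpos' ENNReal.ofReal_ne_top, one_mul]
      _ ≤ _ := by
          gcongr
          exact (tm_pos (m + 1)).le
  calc 2 * (2 ^ k * (κi n * (ENNReal.ofReal (tm (m + 1) ^ n))⁻¹ *
        ((DD k (tm m) p u + DD k (tm (m + 1)) p u) * Nm k p' μ (tm m))))
      ≤ 2 * (2 ^ k * (κi n * (2 ^ n * (ENNReal.ofReal (tm m ^ n))⁻¹) *
        ((ENNReal.ofReal (tm m ^ α) * am k α p u m + ENNReal.ofReal (tm m ^ α) *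
          am k α p u (m + 1)) * Nm k p' μ (tm m)))) := by
        rw [h1, h2]
        gcongr
    _ = _ := by unfold bm; ring

/-- `ℓ^q ⊆ ℓ^{q₁}` -/
lemma lq_mono (a : ℕ → ℝ≥0∞) {q q1 : ℝ} (hq : 0 < q) (hqq : q ≤ q1) :
    (∑' m, a m ^ q1) ^ (1 / q1) ≤ (∑' m, a m ^ q) ^ (1 / q) := by
  set S := (∑' m, a m ^ q) ^ (1 / q) with hS
  have hSq : S ^ q = ∑' m, a m ^ q := by
    rw [hS, ← ENNReal.rpow_mul, one_div, inv_mul_cancel₀ hq.ne', ENNReal.rpow_one]
  have h1 : ∀ m, a m ≤ S := by
    intro m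
    rw [← ENNReal.rpow_le_rpow_iff hq, hSq]
    exact ENNReal.le_tsum m
  have hq1 : 0 < q1 := hq.trans_le hqq
  have h2 : ∑' m, a m ^ q1 ≤ S ^ q1 := by
    calc ∑' m, a m ^ q1 = ∑' m, a m ^ q * a m ^ (q1 - q) := by
          congr 1; funext m
          rw [← ENNReal.rpow_add_of_nonneg _ _ hq.le (by linarith)]
          congr 1; ring
      _ ≤ ∑' m, a m ^ q * S ^ (q1 - q) := by
          apply ENNReal.tsum_le_tsum
          intro m
          exact mul_le_mul_right (ENNReal.rpow_le_rpow (h1 m) (by linarith)) _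
      _ = S ^ q * S ^ (q1 - q) := by rw [ENNReal.tsum_mul_right, hSq]
      _ = S ^ q1 := by
          rw [← ENNReal.rpow_add_of_nonneg _ _ hq.le (by linarith)]
          congr 1; ring
  calc (∑' m, a m ^ q1) ^ (1 / q1) ≤ (S ^ q1) ^ (1 / q1) :=
        ENNReal.rpow_le_rpow h2 (by positivity)
    _ = S := by rw [← ENNReal.rpow_mul, one_div, mul_inv_cancel₀ hq1.ne', ENNReal.rpow_one]

theorem est {n : ℕ} [NeZero n] (k : ℕ) {p p' : ℝ} (hp : p.HolderConjugate p')
    {q q1 q1' : ℝ} (hq : 1 ≤ q) (hqq : q ≤ q1) (hq1 : q1.HolderConjugate q1')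
    (μ : Measure (EE n)) [SFinite μ] (hμ : μ univ ≤ 1) {u : EE n → ℝ} (hu : Nice u)
    {α : ℝ} (hα : 0 < α) (J : ℕ) :
    ∫⁻ x, ‖RR k (tm J) u x‖ₑ ∂μ ≤
      2 ^ k * (κi n * volume (closedBall (0 : EE n) k) ^ (1 / p')) *
        (Lp' p u + (κi n * semi k α p q u) ^ (1 / q)) +
      (2 * 2 ^ k * κi n * 2 ^ n) * (2 * ((κi n * semi k α p q u) ^ (1 / q) *
        (∑ m ∈ Finset.range J, bm k α p' μ m ^ q1') ^ (1 / q1'))) := by
  set S := (κi n * semi k α p q u) ^ (1 / q) with hS
  have hq0 : 0 < q := by linarith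
  have hq10 : 0 < q1 := hq1.pos
  have haS : (∑' m, am k α p u m ^ q) ^ (1 / q) ≤ S :=
    ENNReal.rpow_le_rpow (sum_DD_le k hq hα hu) (by positivity)
  have haS1 : (∑' m, am k α p u m ^ q1) ^ (1 / q1) ≤ S := (lq_mono _ hq0 hqq).trans haS
  have ha0 : DD k 1 p u ≤ S := by
    have h0 : am k α p u 0 = DD k 1 p u := by simp [am, tm]
    rw [← h0]
    refine le_trans ?_ haS
    calc am k α p u 0 = (am k α p u 0 ^ q) ^ (1 / q) := by
          rw [← ENNReal.rpow_mul, one_div, mul_inv_cancel₀ hq0.ne', ENNReal.rpow_one]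
      _ ≤ _ := ENNReal.rpow_le_rpow (ENNReal.le_tsum (f := fun m => am k α p u m ^ q) 0)
          (by positivity)
  have hcont : ∀ t, Continuous (RR k t u) := fun t =>
    hu.1.sub (GG_nice k t (GG_nice k t hu)).1
  have htele : ∀ x, ‖RR k (tm J) u x‖ₑ ≤ ‖RR k 1 u x‖ₑ +
      ∑ m ∈ Finset.range J, ‖RR k (tm (m + 1)) u x - RR k (tm m) u x‖ₑ := by
    intro x
    have e : RR k (tm J) u x = RR k 1 u x +
        ∑ m ∈ Finset.range J, (RR k (tm (m + 1)) u x - RR k (tm m) u x) := by
      rw [Finset.sum_range_sub (fun m => RR k (tm m) u x)]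
      simp [tm]
    rw [e]
    refine (enorm_add_le _ _).trans ?_
    gcongr
    exact enorm_sum_le _ _
  calc ∫⁻ x, ‖RR k (tm J) u x‖ₑ ∂μ
      ≤ ∫⁻ x, (‖RR k 1 u x‖ₑ +
        ∑ m ∈ Finset.range J, ‖RR k (tm (m + 1)) u x - RR k (tm m) u x‖ₑ) ∂μ :=
        lintegral_mono htele
    _ = ∫⁻ x, ‖RR k 1 u x‖ₑ ∂μ +
        ∑ m ∈ Finset.range J, ∫⁻ x, ‖RR k (tm (m + 1)) u x - RR k (tm m) u x‖ₑ ∂μ := by
        rw [lintegral_add_left (hcont 1).measurable.enorm, lintegral_finsetSum]
        intro m _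
        exact ((hcont _).sub (hcont _)).measurable.enorm
    _ ≤ _ := by
        apply add_le_add
        · calc ∫⁻ x, ‖RR k 1 u x‖ₑ ∂μ
              ≤ ∫⁻ x, 2 ^ k * (κi n * volume (closedBall (0 : EE n) k) ^ (1 / p')) *
                (Lp' p u + S) ∂μ := by
                apply lintegral_mono
                intro x
                exact (RR_one_bound k hp hu x).trans
                  (mul_le_mul_right (add_le_add le_rfl ha0) _)
            _ = 2 ^ k * (κi n * volume (closedBall (0 : EE n) k) ^ (1 / p')) *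
                (Lp' p u + S) * μ univ := by rw [lintegral_const]
            _ ≤ 2 ^ k * (κi n * volume (closedBall (0 : EE n) k) ^ (1 / p')) *
                (Lp' p u + S) * 1 := by gcongr
            _ = _ := mul_one _
        · calc ∑ m ∈ Finset.range J, ∫⁻ x, ‖RR k (tm (m + 1)) u x - RR k (tm m) u x‖ₑ ∂μ
              ≤ ∑ m ∈ Finset.range J, (2 * 2 ^ k * κi n * 2 ^ n) *
                ((am k α p u m + am k α p u (m + 1)) * bm k α p' μ m) :=
                Finset.sum_le_sum fun m _ => step_bound' k hp μ hu hα m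
            _ = (2 * 2 ^ k * κi n * 2 ^ n) * (∑ m ∈ Finset.range J, am k α p u m * bm k α p' μ m +
                ∑ m ∈ Finset.range J, am k α p u (m + 1) * bm k α p' μ m) := by
                rw [← Finset.mul_sum, ← Finset.sum_add_distrib]
                congr 1
                apply Finset.sum_congr rfl
                intro m _
                ring
            _ ≤ (2 * 2 ^ k * κi n * 2 ^ n) *
                (S * (∑ m ∈ Finset.range J, bm k α p' μ m ^ q1') ^ (1 / q1') +
                 S * (∑ m ∈ Finset.range J, bm k α p' μ m ^ q1') ^ (1 / q1')) := by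
                refine mul_le_mul_right (add_le_add ?_ ?_) _
                · refine (ENNReal.inner_le_Lp_mul_Lq _ _ _ hq1).trans ?_
                  refine mul_le_mul_left ?_ _
                  refine le_trans ?_ haS1
                  exact ENNReal.rpow_le_rpow (ENNReal.sum_le_tsum _) (by positivity)
                · refine (ENNReal.inner_le_Lp_mul_Lq _ _ _ hq1).trans ?_
                  refine mul_le_mul_left ?_ _
                  refine le_trans ?_ haS1
                  refine ENNReal.rpow_le_rpow ?_ (by positivity)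
                  refine (ENNReal.sum_le_tsum (f := fun m => am k α p u (m + 1) ^ q1) _).trans ?_
                  exact ENNReal.tsum_comp_le_tsum_of_injective (add_left_injective 1)
                    (fun m => am k α p u m ^ q1)
            _ = _ := by ring

end Pool.Agent.H761R2.Besov
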