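import Pool.Agent.H761R2.Besov.Infinite

/-!
# The compact set carried by a mass tree
-/

set_option autoImplicit false

open scoped ENNReal Topology
open Set MeasureTheory Filter

namespace Pool.Agent.H761R2.Besov

/-- closed dyadic cube -/
def cube {n : ℕ} (k : ℕ) (z : Idx n) : Set (EuclideanSpace ℝ (Fin n)) :=
  {x | ∀ i, (z i : ℝ) / 2 ^ k ≤ x i ∧ x i ≤ (z i + 1) / 2 ^ k}

/-- lower corner of a dyadic cube -/
noncomputable def pt {n : ℕ} (k : ℕ) (z : Idx n) : EuclideanSpace ℝ (Fin n) :=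
  WithLp.toLp 2 (fun i => (z i : ℝ) / 2 ^ k)

lemma pt_apply {n : ℕ} (k : ℕ) (z : Idx n) (i : Fin n) : pt k z i = (z i : ℝ) / 2 ^ k := rfl

lemma pt_mem_cube {n : ℕ} (k : ℕ) (z : Idx n) : pt k z ∈ cube k z := by
  intro i
  rw [pt_apply]
  refine ⟨le_rfl, ?_⟩
  gcongr
  linarith

lemma cube_subset_par {n : ℕ} (k : ℕ) (z : Idx n) : cube (k + 1) z ⊆ cube k (par z) := by
  intro x hx i
  obtain ⟨h1, h2⟩ := hx i
  have h3 : 2 * (z i / 2) ≤ z i := by omega
  have h4 : z i + 1 ≤ 2 * (z i / 2) + 2 := by omega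
  have h3' : 2 * ((z i / 2 : ℤ) : ℝ) ≤ z i := by exact_mod_cast h3
  have h4' : (z i : ℝ) + 1 ≤ 2 * ((z i / 2 : ℤ) : ℝ) + 2 := by exact_mod_cast h4
  have hp : (0 : ℝ) < 2 ^ k := by positivity
  rw [div_le_iff₀ (by positivity), pow_succ] at h1
  rw [le_div_iff₀ (by positivity), pow_succ] at h2
  simp only [par]
  constructor
  · rw [div_le_iff₀ hp]; nlinarith
  · rw [le_div_iff₀ hp]; nlinarith

lemma cube_subset_anc {n : ℕ} (k i : ℕ) (z : Idx n) : cube (k + i) z ⊆ cube k (anc i z) := by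
  induction i generalizing z with
  | zero => exact subset_rfl
  | succ i ih =>
    rw [anc_succ]
    exact (cube_subset_par (k + i) z).trans (ih (par z))

lemma isClosed_cube {n : ℕ} (k : ℕ) (z : Idx n) : IsClosed (cube k z) := by
  have : cube k z = ⋂ i, ({x : EuclideanSpace ℝ (Fin n) | (z i : ℝ) / 2 ^ k ≤ x i} ∩
      {x : EuclideanSpace ℝ (Fin n) | x i ≤ ((z i : ℝ) + 1) / 2 ^ k}) := by
    ext x
    simp [cube]
  rw [this]
  apply isClosed_iInter
  intro i
  exact (isClosed_le continuous_const (by fun_prop)).inter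
    (isClosed_le (by fun_prop) continuous_const)

lemma dist_le_cube {n : ℕ} (k : ℕ) (z : Idx n) {x y : EuclideanSpace ℝ (Fin n)}
    (hx : x ∈ cube k z) (hy : y ∈ cube k z) : dist x y ≤ Real.sqrt n * (2 ^ k)⁻¹ := by
  rw [EuclideanSpace.dist_eq]
  have h : ∀ i, dist (x i) (y i) ^ 2 ≤ ((2 ^ k : ℝ)⁻¹) ^ 2 := by
    intro i
    obtain ⟨h1, h2⟩ := hx i
    obtain ⟨h3, h4⟩ := hy i
    have hd : dist (x i) (y i) ≤ (2 ^ k : ℝ)⁻¹ := by
      rw [Real.dist_eq, abs_le]
      rw [add_div, one_div] at h2 h4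
      constructor <;> linarith
    gcongr
  calc Real.sqrt (∑ i, dist (x i) (y i) ^ 2) ≤ Real.sqrt (∑ _i : Fin n, ((2 ^ k : ℝ)⁻¹) ^ 2) := by
        apply Real.sqrt_le_sqrt
        exact Finset.sum_le_sum fun i _ => h i
    _ = Real.sqrt (n * ((2 ^ k : ℝ)⁻¹) ^ 2) := by simp
    _ = Real.sqrt n * (2 ^ k)⁻¹ := by
        rw [Real.sqrt_mul (by positivity), Real.sqrt_sq (by positivity)]

lemma ediam_cube {n : ℕ} (k : ℕ) (z : Idx n) :
    Metric.ediam (cube k z) ≤ ENNReal.ofReal (Real.sqrt n) * 2 ^ (-(k : ℝ)) := by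
  apply Metric.ediam_le
  intro x hx y hy
  rw [edist_dist]
  have h2 : (2 : ℝ≥0∞) ^ (-(k : ℝ)) = ENNReal.ofReal ((2 ^ k)⁻¹) := by
    rw [ENNReal.rpow_neg, ENNReal.rpow_natCast, ENNReal.ofReal_inv_of_pos (by positivity),
      ENNReal.ofReal_pow (by norm_num)]
    simp
  rw [h2, ← ENNReal.ofReal_mul (by positivity)]
  exact ENNReal.ofReal_le_ofReal (dist_le_cube k z hx hy)

lemma isCompact_cube {n : ℕ} (k : ℕ) (z : Idx n) : IsCompact (cube k z) := by
  apply Metric.isCompact_of_isClosed_isBounded (isClosed_cube k z)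
  apply Metric.isBounded_iff.2
  exact ⟨_, fun x hx y hy => dist_le_cube k z hx hy⟩

/-- The level-`k` approximation. -/
def KK {n : ℕ} (P : ℕ → Set (Idx n)) (k : ℕ) : Set (EuclideanSpace ℝ (Fin n)) :=
  ⋃ z ∈ {z | run P k z ≠ 0}, cube k z

/-- The limit set. -/
def KS {n : ℕ} (P : ℕ → Set (Idx n)) : Set (EuclideanSpace ℝ (Fin n)) := ⋂ k, KK P k

lemma KK_compact {n : ℕ} (P : ℕ → Set (Idx n)) (k : ℕ) : IsCompact (KK P k) :=
  (run_supp_finite P k).isCompact_biUnion fun z _ => isCompact_cube k z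

lemma KK_antitone {n : ℕ} (P : ℕ → Set (Idx n)) : Antitone (KK P) := by
  apply antitone_nat_of_succ_le
  intro k x hx
  simp only [KK, mem_iUnion] at hx ⊢
  obtain ⟨z, hz, hx⟩ := hx
  exact ⟨par z, run_par_ne_zero P k z hz, cube_subset_par k z hx⟩

lemma KS_compact {n : ℕ} (P : ℕ → Set (Idx n)) : IsCompact (KS P) :=
  (KK_compact P 0).of_isClosed_subset (isClosed_iInter fun k => (KK_compact P k).isClosed)
    (iInter_subset _ 0)

theorem KS_null {n : ℕ} {d : ℝ} (hd : 0 < d) (P : ℕ → Set (Idx n)) (a : ℕ → ℕ)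
    (ha : StrictMono a) (hC : ∀ j, Cover d ((2 : ℝ≥0∞)⁻¹ ^ j) P (a j) (a (j + 1))) :
    (μH[d] : Measure (EuclideanSpace ℝ (Fin n))) (KS P) = 0 := by
  classical
  choose lev T h1 h2 h3 using hC
  set c : ℝ≥0∞ := ENNReal.ofReal (Real.sqrt n) with hc
  let t : ℕ → (Idx n × Idx n) → Set (EuclideanSpace ℝ (Fin n)) :=
    fun j p => if p.2 ∈ T j p.1 then cube (lev j p.1) p.2 else ∅
  have hr : Tendsto (fun j => c * 2 ^ (-(a j : ℝ))) atTop (𝓝 0) := by
    have h5 : Tendsto (fun j => (2 : ℝ≥0∞)⁻¹ ^ (a j)) atTop (𝓝 0) :=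
      (ENNReal.tendsto_pow_atTop_nhds_zero_of_lt_one (by
        apply ENNReal.inv_lt_one.2; norm_num)).comp ha.tendsto_atTop
    have h6 := ENNReal.Tendsto.const_mul (a := c) h5 (Or.inr ENNReal.ofReal_ne_top)
    rw [mul_zero] at h6
    refine h6.congr fun j => ?_
    rw [ENNReal.rpow_neg, ENNReal.rpow_natCast, ENNReal.inv_pow]
  have hle := Measure.hausdorffMeasure_le_liminf_tsum (l := atTop) d (KS P)
    (fun j => c * 2 ^ (-(a j : ℝ))) hr t ?_ ?_
  · refine le_antisymm (hle.trans ?_) zero_le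
    have hs : ∀ j, ∑' p, Metric.ediam (t j p) ^ d ≤ c ^ d * (2 : ℝ≥0∞)⁻¹ ^ j := by
      intro j
      calc ∑' p, Metric.ediam (t j p) ^ d
          ≤ ∑' p : Idx n × Idx n, c ^ d *
            (T j p.1).indicator (fun _ => (2 : ℝ≥0∞) ^ (-((lev j p.1 : ℝ) * d))) p.2 := by
            apply ENNReal.tsum_le_tsum
            rintro ⟨z, v⟩
            simp only [t]
            split_ifs with h
            · rw [Set.indicator_of_mem h]
              calc Metric.ediam (cube (lev j z) v) ^ d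
                  ≤ (c * 2 ^ (-(lev j z : ℝ))) ^ d :=
                    ENNReal.rpow_le_rpow (ediam_cube _ _) hd.le
                _ = c ^ d * 2 ^ (-((lev j z : ℝ) * d)) := by
                    rw [ENNReal.mul_rpow_of_nonneg _ _ hd.le, two_rpow_rpow]
                    congr 2
                    ring
            · simp [ENNReal.zero_rpow_of_pos hd]
        _ = c ^ d * ∑' z, ∑' v, (T j z).indicator
              (fun _ => (2 : ℝ≥0∞) ^ (-((lev j z : ℝ) * d))) v := by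
            rw [ENNReal.tsum_mul_left, ENNReal.tsum_prod']
        _ ≤ c ^ d * (2 : ℝ≥0∞)⁻¹ ^ j := by gcongr; exact h2 j
    have hlim : Tendsto (fun j : ℕ => c ^ d * (2 : ℝ≥0∞)⁻¹ ^ j) atTop (𝓝 0) := by
      have h5 : Tendsto (fun j : ℕ => (2 : ℝ≥0∞)⁻¹ ^ j) atTop (𝓝 0) :=
        ENNReal.tendsto_pow_atTop_nhds_zero_of_lt_one (by
          apply ENNReal.inv_lt_one.2; norm_num)
      have h6 := ENNReal.Tendsto.const_mul (a := c ^ d) h5
        (Or.inr (ENNReal.rpow_ne_top_of_nonneg hd.le ENNReal.ofReal_ne_top))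
      rwa [mul_zero] at h6
    calc liminf (fun j => ∑' p, Metric.ediam (t j p) ^ d) atTop
        ≤ liminf (fun j : ℕ => c ^ d * (2 : ℝ≥0∞)⁻¹ ^ j) atTop :=
          liminf_le_liminf (Eventually.of_forall hs)
      _ = 0 := hlim.liminf_eq
  · refine Eventually.of_forall fun j p => ?_
    simp only [t]
    split_ifs with h
    · refine (ediam_cube _ _).trans ?_
      have h7 := h1 j p.1
      have h8 : ((a j : ℕ) : ℝ) ≤ lev j p.1 := by exact_mod_cast h7
      exact mul_le_mul_right (two_rpow_mono (by linarith)) c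
    · simp
  · refine Eventually.of_forall fun j x hx => ?_
    have hx' := mem_iInter.1 hx (a (j + 1))
    simp only [KK, mem_iUnion] at hx'
    obtain ⟨z', hz', hxz⟩ := hx'
    obtain ⟨z, i, hi, hlev, hT⟩ := h3 j z' hz'
    rw [mem_iUnion]
    refine ⟨(z, anc i z'), ?_⟩
    simp only [t]
    rw [if_pos hT, hlev]
    apply cube_subset_anc (a (j + 1) - i) i z'
    rwa [Nat.sub_add_cancel hi]

end Pool.Agent.H761R2.Besov
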