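import Pool.Agent.H761R2.Besov.Stage

/-!
# Concatenation of the stages
-/

set_option autoImplicit false

open scoped ENNReal
open Set

namespace Pool.Agent.H761R2.Besov

lemma sum_B {ι : Type} (γ η : ℝ≥0∞) (r : ℝ) (hr : 1 < r) (w : ι → ℝ≥0∞) (p : ι → ℕ)
    (hp : Function.Injective p) (hw : ∀ z, w z ≤ η) (hw1 : ∑' z, w z ≤ 1) :
    ∑' i : ℕ, (∑' z, w z * γ ^ ((i - p z) + (p z - i))) ^ r ≤
      (η * ((1 + γ) * (1 - γ)⁻¹)) ^ (r - 1) * ((1 + γ) * (1 - γ)⁻¹) := by
  set S : ℝ≥0∞ := (1 + γ) * (1 - γ)⁻¹ with hS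
  have h1 : ∀ i : ℕ, ∑' z, w z * γ ^ ((i - p z) + (p z - i)) ≤ η * S := by
    intro i
    calc ∑' z, w z * γ ^ ((i - p z) + (p z - i))
        ≤ ∑' z, η * γ ^ ((i - p z) + (p z - i)) := by
          apply ENNReal.tsum_le_tsum
          intro z
          gcongr
          exact hw z
      _ = η * ∑' z, γ ^ ((i - p z) + (p z - i)) := ENNReal.tsum_mul_left
      _ ≤ η * ∑' j : ℕ, γ ^ ((i - j) + (j - i)) := by
          gcongr
          exact ENNReal.tsum_comp_le_tsum_of_injective hp (fun j => γ ^ ((i - j) + (j - i)))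
      _ ≤ η * S := by gcongr; exact tsum_two_sided γ i
  have h2 : ∑' i : ℕ, ∑' z, w z * γ ^ ((i - p z) + (p z - i)) ≤ S := by
    rw [ENNReal.tsum_comm]
    calc ∑' z, ∑' i : ℕ, w z * γ ^ ((i - p z) + (p z - i))
        = ∑' z, w z * ∑' i : ℕ, γ ^ ((i - p z) + (p z - i)) := by
          congr 1; funext z; exact ENNReal.tsum_mul_left
      _ ≤ ∑' z, w z * S := by
          apply ENNReal.tsum_le_tsum
          intro z
          gcongr
          have := tsum_two_sided γ (p z)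
          simp_rw [add_comm (_ - p z) (p z - _)]
          exact this
      _ = (∑' z, w z) * S := ENNReal.tsum_mul_right
      _ ≤ 1 * S := by gcongr
      _ = S := one_mul S
  calc ∑' i : ℕ, (∑' z, w z * γ ^ ((i - p z) + (p z - i))) ^ r
      ≤ ∑' i : ℕ, (η * S) ^ (r - 1) * (∑' z, w z * γ ^ ((i - p z) + (p z - i))) := by
        apply ENNReal.tsum_le_tsum
        intro i
        have : (∑' z, w z * γ ^ ((i - p z) + (p z - i))) ^ r =
            (∑' z, w z * γ ^ ((i - p z) + (p z - i))) ^ (r - 1) *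
            (∑' z, w z * γ ^ ((i - p z) + (p z - i))) := by
          conv_lhs => rw [show r = (r - 1) + 1 by ring]
          rw [ENNReal.rpow_add_of_nonneg _ _ (by linarith) (by norm_num), ENNReal.rpow_one]
        rw [this]
        gcongr
        exact h1 i
    _ = (η * S) ^ (r - 1) * ∑' i : ℕ, (∑' z, w z * γ ^ ((i - p z) + (p z - i))) :=
        ENNReal.tsum_mul_left
    _ ≤ (η * S) ^ (r - 1) * S := by gcongr

/-- geometric decay factor -/
noncomputable def gg (n : ℕ) (d σ : ℝ) : ℝ≥0∞ := 2 ^ (-((n - d) * σ))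

lemma gg_lt_one {n : ℕ} {d σ : ℝ} (hdn : d < n) (hσ : 0 < σ) : gg n d σ < 1 := by
  unfold gg
  rw [ENNReal.rpow_neg]
  apply ENNReal.inv_lt_one.2
  exact ENNReal.one_lt_rpow (by norm_num) (by have : 0 < (n:ℝ) - d := by linarith
                                              positivity)

lemma rpow_lt_one' {x : ℝ≥0∞} (hx : x < 1) {r : ℝ} (hr : 0 < r) : x ^ r < 1 := by
  have := ENNReal.rpow_lt_rpow hx hr
  simpa using this

/-- the constant of the relaxation phase -/
noncomputable def Cg (n : ℕ) (d σ r : ℝ) : ℝ≥0∞ := (1 - gg n d σ ^ r)⁻¹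

lemma Cg_ne_top {n : ℕ} {d σ r : ℝ} (hdn : d < n) (hσ : 0 < σ) (hr : 0 < r) :
    Cg n d σ r ≠ ⊤ := by
  unfold Cg
  rw [Ne, ENNReal.inv_eq_top, tsub_eq_zero_iff_le, not_le]
  exact rpow_lt_one' (gg_lt_one hdn hσ) hr

lemma tsum_gg (n : ℕ) (d σ r : ℝ) (hr : 0 < r) (x : ℝ≥0∞) :
    ∑' i : ℕ, (gg n d σ ^ i * x) ^ r = Cg n d σ r * x ^ r := by
  have : ∀ i : ℕ, (gg n d σ ^ i * x) ^ r = (gg n d σ ^ r) ^ i * x ^ r := by
    intro i
    rw [ENNReal.mul_rpow_of_nonneg _ _ hr.le, ← ENNReal.rpow_natCast, ← ENNReal.rpow_natCast,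
      ← ENNReal.rpow_mul, ← ENNReal.rpow_mul, mul_comm (i : ℝ) r]
  simp_rw [this]
  rw [ENNReal.tsum_mul_right, ENNReal.tsum_geometric]
  rfl

lemma gg_pow (n : ℕ) (d σ : ℝ) (i : ℕ) : gg n d σ ^ i = 2 ^ (-((n - d) * σ * i)) := by
  unfold gg
  rw [two_rpow_pow]
  congr 1
  ring

/-- weight of the two-sided bound -/
noncomputable def SS (n : ℕ) (d σ : ℝ) : ℝ≥0∞ :=
  (1 + (2 : ℝ≥0∞) ^ (-(min d (n - d) * σ))) * (1 - (2 : ℝ≥0∞) ^ (-(min d (n - d) * σ)))⁻¹

lemma SS_ne_top {n : ℕ} {d σ : ℝ} (hd : 0 < d) (hdn : d < n) (hσ : 0 < σ) : SS n d σ ≠ ⊤ := by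
  unfold SS
  apply ENNReal.mul_ne_top
  · exact ENNReal.add_ne_top.2 ⟨by norm_num, two_rpow_ne_top _⟩
  · rw [Ne, ENNReal.inv_eq_top, tsub_eq_zero_iff_le, not_le, ENNReal.rpow_neg]
    apply ENNReal.inv_lt_one.2
    exact ENNReal.one_lt_rpow (by norm_num) (by
      have : 0 < min d (n - d) := lt_min hd (by linarith)
      positivity)

/-- choice of the relaxation time -/
lemma exists_relax {n : ℕ} (hn : 1 ≤ n) {d σ r : ℝ} (hd : 0 < d) (hdn : d < n) (hσ : 0 < σ)
    (hr : 1 < r) (x K : ℝ≥0∞) (hx : x ≠ ⊤) (hK : K ≠ ⊤) (ε : ℝ≥0∞) (hε : 0 < ε) :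
    ∃ t : ℕ, 2 ^ (r - 1) * (Cg n d σ r * (gg n d σ ^ t * x) ^ r +
      K * ((((2 : ℝ≥0∞) ^ n)⁻¹ ^ t * SS n d σ) ^ (r - 1) * SS n d σ)) ≤ ε := by
  have h1 : Filter.Tendsto (fun t : ℕ => gg n d σ ^ t * x) Filter.atTop (nhds 0) := by
    have := ENNReal.Tendsto.mul_const (b := x)
      (ENNReal.tendsto_pow_atTop_nhds_zero_of_lt_one (gg_lt_one hdn hσ)) (Or.inr hx)
    simpa using this
  have h2 : Filter.Tendsto (fun t : ℕ => (gg n d σ ^ t * x) ^ r) Filter.atTop (nhds 0) := by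
    have := (ENNReal.continuous_rpow_const (y := r)).tendsto 0
    rw [ENNReal.zero_rpow_of_pos (by linarith)] at this
    exact this.comp h1
  have h2lt : ((2 : ℝ≥0∞) ^ n)⁻¹ < 1 := by
    apply ENNReal.inv_lt_one.2
    exact one_lt_pow₀ (by norm_num) (by omega)
  have h3 : Filter.Tendsto (fun t : ℕ => ((2 : ℝ≥0∞) ^ n)⁻¹ ^ t * SS n d σ) Filter.atTop
      (nhds 0) := by
    have := ENNReal.Tendsto.mul_const (b := SS n d σ)
      (ENNReal.tendsto_pow_atTop_nhds_zero_of_lt_one h2lt) (Or.inr (SS_ne_top hd hdn hσ))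
    simpa using this
  have h4 : Filter.Tendsto (fun t : ℕ => (((2 : ℝ≥0∞) ^ n)⁻¹ ^ t * SS n d σ) ^ (r - 1))
      Filter.atTop (nhds 0) := by
    have := (ENNReal.continuous_rpow_const (y := r - 1)).tendsto 0
    rw [ENNReal.zero_rpow_of_pos (by linarith)] at this
    exact this.comp h3
  have h5 := ENNReal.Tendsto.mul_const (b := SS n d σ) h4 (Or.inr (SS_ne_top hd hdn hσ))
  have h6 := ENNReal.Tendsto.const_mul (a := K) h5 (Or.inr hK)
  have h7 := ENNReal.Tendsto.const_mul (a := Cg n d σ r) h2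
    (Or.inr (Cg_ne_top hdn hσ (by linarith)))
  have h8 := ENNReal.Tendsto.const_mul (a := (2 : ℝ≥0∞) ^ (r - 1)) (h7.add h6)
    (Or.inr (two_rpow_ne_top _))
  simp only [mul_zero, zero_mul, add_zero] at h8
  obtain ⟨t, ht⟩ := ((tendsto_order.1 h8).2 ε hε).exists
  exact ⟨t, ht.le⟩

/-- The cover property of a stage. -/
def Cover {n : ℕ} (d : ℝ) (ε : ℝ≥0∞) (P : ℕ → Set (Idx n)) (a b : ℕ) : Prop :=
  ∃ (lev : Idx n → ℕ) (T : Idx n → Set (Idx n)), (∀ z, a ≤ lev z) ∧
    (∑' z, ∑' v, (T z).indicator (fun _ => (2 : ℝ≥0∞) ^ (-((lev z : ℝ) * d))) v ≤ ε) ∧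
    ∀ z', run P b z' ≠ 0 → ∃ z i, i ≤ b ∧ lev z = b - i ∧ anc i z' ∈ T z

/-- The properties of one stage. -/
def Good {n : ℕ} (d σ r : ℝ) (ε : ℕ → ℝ≥0∞) (j : ℕ) (P : ℕ → Set (Idx n)) (a b : ℕ) : Prop :=
  (∑ l ∈ Finset.Ico a b, X d σ l (run P l) ^ r ≤ Cg n d σ r * X d σ a (run P a) ^ r + ε j) ∧
    X d σ b (run P b) ^ r ≤ ε j ∧ Cover d (ε j) P a b

lemma Good.congr {n : ℕ} {d σ r : ℝ} {ε : ℕ → ℝ≥0∞} {j : ℕ} {P P' : ℕ → Set (Idx n)} {a b : ℕ}
    (hab : a < b) (h : ∀ l < b, P l = P' l) (hG : Good d σ r ε j P a b) :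
    Good d σ r ε j P' a b := by
  have hr := run_congr P P' b h
  obtain ⟨h1, h2, lev, T, h3, h4, h5⟩ := hG
  refine ⟨?_, ?_, lev, T, h3, h4, ?_⟩
  · rw [← hr a hab.le]
    refine le_trans (le_of_eq ?_) h1
    apply Finset.sum_congr rfl
    intro l hl
    rw [hr l (Finset.mem_Ico.1 hl).2.le]
  · rw [← hr b le_rfl]; exact h2
  · rw [← hr b le_rfl]; exact h5

open Classical in
theorem stage {n : ℕ} (hn : 1 ≤ n) {d σ r : ℝ} (hd : 0 < d) (hdn : d < n) (hσ : 0 < σ)
    (hr : 1 < r) (ε : ℕ → ℝ≥0∞) (hε : ∀ j, 0 < ε j) (hε' : ∀ j, ε j ≠ ⊤) (j : ℕ)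
    (P : ℕ → Set (Idx n)) (a : ℕ) :
    ∃ P' b, a < b ∧ (∀ l < a, P' l = P l) ∧ Good d σ r ε j P' a b := by
  obtain ⟨l0, hl0⟩ := exists_log (hε j).ne' (hε' j)
  set μ : ℝ := -l0 with hμ
  have hεμ : ε j = 2 ^ (-μ) := by rw [hl0, hμ, neg_neg]
  -- relaxation
  obtain ⟨t, ht⟩ := exists_relax hn hd hdn hσ hr (X d σ a (run P a))
    (((2 : ℝ≥0∞) ^ ((μ + n) * σ)) ^ r) (X_lt_top d σ hσ P a).ne
    (by rw [two_rpow_rpow]; exact two_rpow_ne_top _) (ε j) (hε j)
  set k := a + t with hk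
  set P1 : ℕ → Set (Idx n) := fun l => if l < a then P l else ∅ with hP1
  have hfin := run_supp_finite P1 k
  have hspread : ∀ z : Idx n, run P1 k z ≠ 0 → ∃ p0 : ℕ, ∀ p ≥ p0, ∃ s ≤ p,
      ∀ l : ℝ, run P1 k z = 2 ^ l → (μ ≤ l + (k + p) * d - n * s ∧
      l + (k + p) * d - n * s ≤ μ + n) := by
    intro z hz
    obtain ⟨l, hl⟩ := exists_log hz (ne_top_of_le_ne_top ENNReal.one_ne_top (run_le_one P1 k z))
    obtain ⟨p0, hp0⟩ := exists_spread n d μ l hd hdn k
    refine ⟨p0, fun p hp => ?_⟩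
    obtain ⟨s, hs, h1, h2⟩ := hp0 p hp
    refine ⟨s, hs, fun l' hl' => ?_⟩
    have : l' = l := by
      rw [hl] at hl'
      by_contra hne
      rcases lt_or_gt_of_ne hne with h | h
      · have := ENNReal.rpow_lt_rpow_of_exponent_lt (x := 2) (by norm_num) (by norm_num) h
        exact absurd hl' this.ne'
      · have := ENNReal.rpow_lt_rpow_of_exponent_lt (x := 2) (by norm_num) (by norm_num) h
        exact absurd hl' this.ne
    rw [this]
    exact ⟨h1, h2⟩
  choose! p0 hp0 using hspread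
  set Pm : ℕ := ∑ z ∈ hfin.toFinset, p0 z with hPm
  have hPm' : ∀ z : Idx n, run P1 k z ≠ 0 → p0 z ≤ Pm := by
    intro z hz
    exact Finset.single_le_sum (f := p0) (fun _ _ => Nat.zero_le _)
      (hfin.mem_toFinset.2 hz)
  set p : Idx n → ℕ := fun z => Pm + Encodable.encode z with hp
  have hpinj : Function.Injective p := by
    intro z z' h
    have : Encodable.encode z = Encodable.encode z' := by
      simp only [hp] at h
      omega
    exact Encodable.encode_injective this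
  have hs0 : ∀ z : Idx n, ∃ s ≤ p z, run P1 k z ≠ 0 → ∀ l : ℝ, run P1 k z = 2 ^ l →
      (μ ≤ l + (k + p z) * d - n * s ∧ l + (k + p z) * d - n * s ≤ μ + n) := by
    intro z
    by_cases hz : run P1 k z = 0
    · exact ⟨0, Nat.zero_le _, fun h => absurd hz h⟩
    · obtain ⟨s, hs, h⟩ := hp0 z hz (p z) (by have := hPm' z hz; simp only [hp]; omega)
      exact ⟨s, hs, fun _ => h⟩
  choose s hsp hs using hs0
  set P' : ℕ → Set (Idx n) := fun l => if l < k then P1 l else
    {v | s (anc (l - k) v) ≤ l - k ∧ l - k < p (anc (l - k) v)} with hP'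
  have hrun1 : ∀ l ≤ k, run P' l = run P1 l := by
    apply run_congr
    intro l hl
    simp only [hP', hl, if_true]
  have hrun0 : ∀ l ≤ a, run P' l = run P l := by
    intro l hl
    rw [hrun1 l (by omega)]
    apply run_congr P1 P a _ l hl
    intro l' hl'
    simp only [hP1, hl', if_true]
  have hP'k : ∀ i, P' (k + i) = {v | s (anc i v) ≤ i ∧ i < p (anc i v)} := by
    intro i
    simp only [hP']
    rw [if_neg (by omega), Nat.add_sub_cancel_left]
  have hP'a : ∀ i < t, P' (a + i) = ∅ := by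
    intro i hi
    simp only [hP', hP1]
    rw [if_pos (by omega), if_neg (by omega)]
  have hrk := hrun1 k le_rfl
  -- the end
  set L : ℕ := ∑ z ∈ hfin.toFinset, p z with hL
  have hLp : ∀ z : Idx n, run P' k z ≠ 0 → p z ≤ L := by
    intro z hz
    rw [hrk] at hz
    exact Finset.single_le_sum (f := p) (fun _ _ => Nat.zero_le _)
      (hfin.mem_toFinset.2 hz)
  -- energies
  have hXa : X d σ a (run P' a) = X d σ a (run P a) := by rw [hrun0 a le_rfl]
  have hXspread : ∀ i ≤ t, X d σ (a + i) (run P' (a + i)) = gg n d σ ^ i * X d σ a (run P' a) := by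
    intro i hi
    rw [gg_pow]
    exact X_spread d σ hσ P' a i (fun i' hi' => hP'a i' (by omega))
  have hXsched : ∀ i, X d σ (k + i) (run P' (k + i)) ≤ gg n d σ ^ i * X d σ k (run P' k) +
      2 ^ ((μ + n) * σ) *
        ∑' z, run P' k z * ((2 : ℝ≥0∞) ^ (-(min d (n - d) * σ))) ^ ((i - p z) + (p z - i)) := by
    intro i
    rw [gg_pow]
    apply X_sched d σ μ hσ P' k s p hsp hP'k
    intro z hz l hl
    rw [hrk] at hz hl
    exact (hs z hz l hl).2
  have hmass : ∀ z, run P' k z ≤ ((2 : ℝ≥0∞) ^ n)⁻¹ ^ t := by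
    intro z
    have := run_spread_le P' a t hP'a z
    rw [hk, this, ENNReal.div_eq_inv_mul, ENNReal.inv_pow]
    calc ((2 : ℝ≥0∞) ^ n)⁻¹ ^ t * run P' a (anc t z) ≤ ((2 : ℝ≥0∞) ^ n)⁻¹ ^ t * 1 := by
          gcongr; exact run_le_one _ _ _
      _ = _ := mul_one _
  have hsecond : ∑' i, X d σ (k + i) (run P' (k + i)) ^ r ≤ ε j := by
    refine le_trans ?_ ht
    calc ∑' i, X d σ (k + i) (run P' (k + i)) ^ r
        ≤ ∑' i, 2 ^ (r - 1) * ((gg n d σ ^ i * X d σ k (run P' k)) ^ r +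
          ((2 : ℝ≥0∞) ^ ((μ + n) * σ)) ^ r *
          (∑' z, run P' k z * ((2 : ℝ≥0∞) ^ (-(min d (n - d) * σ))) ^
            ((i - p z) + (p z - i))) ^ r) := by
          apply ENNReal.tsum_le_tsum
          intro i
          refine (ENNReal.rpow_le_rpow (hXsched i) (by linarith)).trans ?_
          refine (ENNReal.rpow_add_le_mul_rpow_add_rpow _ _ hr.le).trans ?_
          rw [ENNReal.mul_rpow_of_nonneg (2 ^ ((μ + n) * σ)) _ (by linarith : 0 ≤ r)]
      _ = 2 ^ (r - 1) * (Cg n d σ r * (X d σ k (run P' k)) ^ r +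
          ((2 : ℝ≥0∞) ^ ((μ + n) * σ)) ^ r * ∑' i, (∑' z, run P' k z *
            ((2 : ℝ≥0∞) ^ (-(min d (n - d) * σ))) ^ ((i - p z) + (p z - i))) ^ r) := by
          rw [ENNReal.tsum_mul_left, ENNReal.tsum_add, tsum_gg n d σ r (by linarith),
            ENNReal.tsum_mul_left]
      _ ≤ _ := by
          gcongr
          · rw [hk, hXspread t le_rfl, hXa]
          · exact sum_B _ _ r hr _ p hpinj hmass (run_sum P' k).le
  refine ⟨P', k + L + 1, by omega, ?_, ?_, ?_, ?_⟩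
  · intro l hl
    simp only [hP', hP1]
    rw [if_pos (by omega), if_pos hl]
  · rw [← Finset.sum_Ico_consecutive _ (show a ≤ k by omega) (show k ≤ k + L + 1 by omega)]
    apply add_le_add
    · rw [Finset.sum_Ico_eq_sum_range, show k - a = t by omega]
      calc ∑ i ∈ Finset.range t, X d σ (a + i) (run P' (a + i)) ^ r
          = ∑ i ∈ Finset.range t, (gg n d σ ^ i * X d σ a (run P' a)) ^ r := by
            apply Finset.sum_congr rfl
            intro i hi
            rw [hXspread i (Finset.mem_range.1 hi).le]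
        _ ≤ ∑' i : ℕ, (gg n d σ ^ i * X d σ a (run P' a)) ^ r := ENNReal.sum_le_tsum _
        _ = _ := tsum_gg n d σ r (by linarith) _
    · rw [Finset.sum_Ico_eq_sum_range]
      exact (ENNReal.sum_le_tsum _).trans hsecond
  · refine le_trans ?_ hsecond
    exact ENNReal.le_tsum (f := fun i => X d σ (k + i) (run P' (k + i)) ^ r) (L + 1)
  · refine ⟨fun z => k + p z, fun z => {v | anc (p z) v = z ∧ run P' (k + p z) v ≠ 0}, ?_, ?_, ?_⟩
    · intro z
      show a ≤ k + p z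
      omega
    · have hb : ∀ z v : Idx n, ({v | anc (p z) v = z ∧ run P' (k + p z) v ≠ 0} : Set (Idx n)).indicator
          (fun _ => (2 : ℝ≥0∞) ^ (-(((k + p z : ℕ) : ℝ) * d))) v ≤
          2 ^ (-μ) * (run P' (k + p z) v * (if anc (p z) v = z then 1 else 0)) := by
        intro z v
        by_cases hv : anc (p z) v = z ∧ run P' (k + p z) v ≠ 0
        · rw [Set.indicator_of_mem (by exact hv), if_pos hv.1, mul_one]
          rcases mass_sched P' k s p hsp hP'k (p z) v with h | h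
          · exact absurd h hv.2
          · rw [hv.1] at h
            have hz : run P' k z ≠ 0 := by
              have := run_anc_ne_zero P' k (p z) v hv.2
              rwa [hv.1] at this
            obtain ⟨l, hl⟩ := exists_log hz
              (ne_top_of_le_ne_top ENNReal.one_ne_top (run_le_one P' k z))
            have hz' := hz
            rw [hrk] at hz'
            have hl' := hl
            rw [hrk] at hl'
            have h2 := (hs z hz' l hl').1
            have h3 : sp (p z) (s z) (p z) = s z := by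
              have := hsp z
              unfold sp; omega
            rw [h, h3, hl, two_pow_eq, two_rpow_pow, div_two_rpow, two_rpow_add, two_rpow_add]
            apply two_rpow_mono
            push_cast
            linarith
        · rw [Set.indicator_of_notMem (by exact hv)]
          exact zero_le
      calc (∑' z : Idx n, ∑' v,
            ({v | anc (p z) v = z ∧ run P' (k + p z) v ≠ 0} : Set (Idx n)).indicator
              (fun _ => (2 : ℝ≥0∞) ^ (-(((k + p z : ℕ) : ℝ) * d))) v)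
          ≤ ∑' z : Idx n, ∑' v, 2 ^ (-μ) *
            (run P' (k + p z) v * (if anc (p z) v = z then 1 else 0)) :=
            ENNReal.tsum_le_tsum fun z => ENNReal.tsum_le_tsum fun v => hb z v
        _ = ∑' z : Idx n, 2 ^ (-μ) * run P' k z := by
            congr 1
            funext z
            rw [ENNReal.tsum_mul_left, run_sum_anc P' k (p z) (fun v => if v = z then 1 else 0)]
            congr 1
            simp
        _ = 2 ^ (-μ) := by rw [ENNReal.tsum_mul_left, run_sum, mul_one]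
        _ ≤ ε j := hεμ.ge
    · intro z' hz'
      set z0 := anc (L + 1) z' with hz0
      have hz0' : run P' k z0 ≠ 0 := by
        apply run_anc_ne_zero P' k (L + 1) z'
        rw [← add_assoc]; exact hz'
      have hpz := hLp z0 hz0'
      refine ⟨z0, L + 1 - p z0, by omega, by show k + p z0 = _; omega, ?_, ?_⟩
      · rw [← anc_add, show p z0 + (L + 1 - p z0) = L + 1 by omega]
      · apply run_anc_ne_zero P' (k + p z0) (L + 1 - p z0) z'
        rw [show k + p z0 + (L + 1 - p z0) = k + L + 1 by omega]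
        exact hz'

end Pool.Agent.H761R2.Besov
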