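import Pool.Agent.H761R2.Besov.Glue

/-!
# The infinite mass tree
-/

set_option autoImplicit false

open scoped ENNReal
open Set

namespace Pool.Agent.H761R2.Besov

/-- concatenation of infinitely many stages -/
theorem glue {α : Type} [Inhabited α] (Good : ℕ → (ℕ → α) → ℕ → ℕ → Prop)
    (hdep : ∀ j (P P' : ℕ → α) a b, a < b → (∀ l < b, P l = P' l) → Good j P a b → Good j P' a b)
    (hex : ∀ j (P : ℕ → α) a, ∃ P' b, a < b ∧ (∀ l < a, P' l = P l) ∧ Good j P' a b) :
    ∃ (P : ℕ → α) (a : ℕ → ℕ), a 0 = 0 ∧ StrictMono a ∧ ∀ j, Good j P (a j) (a (j + 1)) := by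
  choose nP nb hlt hagree hgood using hex
  let st : ℕ → (ℕ → α) × ℕ := fun j => Nat.rec (fun _ => default, 0)
    (fun j s => (nP j s.1 s.2, nb j s.1 s.2)) j
  have hst0 : st 0 = (fun _ => default, 0) := rfl
  have hst : ∀ j, st (j + 1) = (nP j (st j).1 (st j).2, nb j (st j).1 (st j).2) := fun j => rfl
  have hmono : StrictMono (fun j => (st j).2) := by
    apply strictMono_nat_of_lt_succ
    intro j
    rw [hst]
    exact hlt j _ _
  have hge : ∀ j, j ≤ (st j).2 := fun j => hmono.le_apply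
  have hagr : ∀ i j, i ≤ j → ∀ l < (st i).2, (st j).1 l = (st i).1 l := by
    intro i j hij
    induction j, hij using Nat.le_induction with
    | base => intro l _; rfl
    | succ j hj ih =>
      intro l hl
      rw [hst]
      have h1 : l < (st j).2 := lt_of_lt_of_le hl (hmono.monotone hj)
      show nP j (st j).1 (st j).2 l = _
      rw [hagree j _ _ l h1]
      exact ih l hl
  refine ⟨fun l => (st (l + 1)).1 l, fun j => (st j).2, rfl, hmono, ?_⟩
  intro j
  have h := hgood j (st j).1 (st j).2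
  have hbeq : nb j (st j).1 (st j).2 = (st (j + 1)).2 := by rw [hst]
  rw [hbeq] at h
  refine hdep j _ _ _ _ (hmono (Nat.lt_succ_self j)) ?_ h
  intro l hl
  have hPeq : nP j (st j).1 (st j).2 = (st (j + 1)).1 := by rw [hst]
  rw [hPeq]
  rcases le_or_gt (l + 1) (j + 1) with h1 | h1
  · exact hagr (l + 1) (j + 1) h1 l (lt_of_lt_of_le (Nat.lt_succ_self l) (hge (l + 1)))
  · exact (hagr (j + 1) (l + 1) h1.le l hl).symm

theorem exists_tree {n : ℕ} (hn : 1 ≤ n) {d σ r : ℝ} (hd : 0 < d) (hdn : d < n) (hσ : 0 < σ)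
    (hr : 1 < r) : ∃ P : ℕ → Set (Idx n), (∑' k, X d σ k (run P k) ^ r < ⊤) ∧
      ∃ a : ℕ → ℕ, StrictMono a ∧ ∀ j, Cover d ((2 : ℝ≥0∞)⁻¹ ^ j) P (a j) (a (j + 1)) := by
  set ε : ℕ → ℝ≥0∞ := fun j => (2 : ℝ≥0∞)⁻¹ ^ j with hε
  have hε0 : ∀ j, 0 < ε j := fun j => by
    simp only [hε]
    exact ENNReal.pow_pos (by simp) j
  have hε1 : ∀ j, ε j ≠ ⊤ := fun j => by
    simp only [hε]
    exact ENNReal.pow_ne_top (by simp)
  obtain ⟨P, a, ha0, ha, hG⟩ := glue (fun j P a b => Good d σ r ε j P a b)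
    (fun j P P' a b hab h hG => hG.congr hab h)
    (fun j P a => stage hn hd hdn hσ hr ε hε0 hε1 j P a)
  refine ⟨P, ?_, a, ha, fun j => (hG j).2.2⟩
  set C := Cg n d σ r with hC
  have hCt : C ≠ ⊤ := Cg_ne_top hdn hσ (by linarith)
  set F : ℕ → ℝ≥0∞ := fun k => X d σ k (run P k) ^ r with hF
  have hsumε : ∑' j, ε j = 2 := by
    simp only [hε]
    rw [ENNReal.tsum_geometric]
    simp
  have hpart : ∀ J, ∑ l ∈ Finset.range (a J), F l ≤
      ∑ j ∈ Finset.range J, (C * F (a j) + ε j) := by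
    intro J
    induction J with
    | zero => simp [ha0]
    | succ J ih =>
      rw [Finset.sum_range_succ, ← Finset.sum_range_add_sum_Ico _ (ha (Nat.lt_succ_self J)).le]
      exact add_le_add ih (hG J).1
  have hFa : ∑' j, F (a j) ≤ F (a 0) + 2 := by
    rw [tsum_eq_zero_add' ENNReal.summable]
    gcongr
    calc ∑' j, F (a (j + 1)) ≤ ∑' j, ε j := ENNReal.tsum_le_tsum fun j => (hG j).2.1
      _ = 2 := hsumε
  have hbound : ∀ N, ∑ l ∈ Finset.range N, F l ≤ C * (F (a 0) + 2) + 2 := by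
    intro N
    calc ∑ l ∈ Finset.range N, F l ≤ ∑ l ∈ Finset.range (a N), F l :=
          Finset.sum_le_sum_of_subset (Finset.range_mono (ha.le_apply))
      _ ≤ ∑ j ∈ Finset.range N, (C * F (a j) + ε j) := hpart N
      _ ≤ ∑' j, (C * F (a j) + ε j) := ENNReal.sum_le_tsum _
      _ = C * ∑' j, F (a j) + 2 := by rw [ENNReal.tsum_add, ENNReal.tsum_mul_left, hsumε]
      _ ≤ C * (F (a 0) + 2) + 2 := by gcongr
  have hfin : C * (F (a 0) + 2) + 2 < ⊤ := by
    rw [ENNReal.add_lt_top]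
    refine ⟨ENNReal.mul_lt_top hCt.lt_top ?_, by norm_num⟩
    rw [ENNReal.add_lt_top]
    exact ⟨ENNReal.rpow_lt_top_of_nonneg (by linarith) (X_lt_top d σ hσ P _).ne, by norm_num⟩
  refine lt_of_le_of_lt ?_ hfin
  rw [ENNReal.tsum_eq_iSup_nat]
  exact iSup_le hbound

end Pool.Agent.H761R2.Besov
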