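import Pool.Agent.H761R2.Besov.Infinite

/-!
# A mass tree whose energies lie in every `ℓ^r`, `r > 1`
-/

set_option autoImplicit false

open scoped ENNReal
open Set

namespace Pool.Agent.H761R2.Besov

/-- exponents decreasing to one -/
noncomputable def rr (j : ℕ) : ℝ := 1 + 1 / ((j : ℝ) + 1)

lemma rr_gt_one (j : ℕ) : 1 < rr j := by
  unfold rr
  have : 0 < 1 / ((j : ℝ) + 1) := by positivity
  linarith

lemma rr_le_two (j : ℕ) : rr j ≤ 2 := by
  unfold rr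
  have : 1 / ((j : ℝ) + 1) ≤ 1 := by
    rw [div_le_one (by positivity)]
    have : (0 : ℝ) ≤ j := Nat.cast_nonneg j
    linarith
  linarith

lemma rr_tendsto : Filter.Tendsto rr Filter.atTop (nhds 1) := by
  unfold rr
  have := tendsto_one_div_add_atTop_nhds_zero_nat (𝕜 := ℝ)
  simpa using this.const_add 1

lemma rpow_anti {x : ℝ≥0∞} (hx : x ≤ 1) {a b : ℝ} (hab : a ≤ b) : x ^ b ≤ x ^ a :=
  ENNReal.rpow_le_rpow_of_exponent_ge hx hab

lemma le_one_of_rpow {x : ℝ≥0∞} {a : ℝ} (ha : 0 < a) (h : x ^ a ≤ 1) : x ≤ 1 := by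
  rw [← ENNReal.rpow_le_rpow_iff ha, ENNReal.one_rpow]
  exact h

lemma Cg_mono {n : ℕ} {d σ r : ℝ} (hdn : d < n) (hσ : 0 < σ) (hr : 1 ≤ r) :
    Cg n d σ r ≤ Cg n d σ 1 := by
  unfold Cg
  rw [ENNReal.inv_le_inv]
  have := rpow_anti (gg_lt_one hdn hσ).le hr
  exact tsub_le_tsub_left this 1

theorem exists_tree' {n : ℕ} (hn : 1 ≤ n) {d σ : ℝ} (hd : 0 < d) (hdn : d < n) (hσ : 0 < σ) :
    ∃ P : ℕ → Set (Idx n), (∀ r : ℝ, 1 < r → ∑' k, X d σ k (run P k) ^ r < ⊤) ∧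
      ∃ a : ℕ → ℕ, StrictMono a ∧ ∀ j, Cover d ((2 : ℝ≥0∞)⁻¹ ^ j) P (a j) (a (j + 1)) := by
  set ε : ℕ → ℝ≥0∞ := fun j => (2 : ℝ≥0∞)⁻¹ ^ j with hε
  have hε0 : ∀ j, 0 < ε j := fun j => by
    simp only [hε]
    exact ENNReal.pow_pos (by simp) j
  have hε1 : ∀ j, ε j ≠ ⊤ := fun j => by
    simp only [hε]
    exact ENNReal.pow_ne_top (by simp)
  obtain ⟨P, a, ha0, ha, hG⟩ := glue (fun j P a b => Good d σ (rr j) ε j P a b)
    (fun j P P' a b hab h hG => hG.congr hab h)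
    (fun j P a => stage hn hd hdn hσ (rr_gt_one j) ε hε0 hε1 j P a)
  refine ⟨P, ?_, a, ha, fun j => (hG j).2.2⟩
  intro r hr
  set C := Cg n d σ 1 with hC
  have hCt : C ≠ ⊤ := Cg_ne_top hdn hσ one_pos
  set x : ℕ → ℝ≥0∞ := fun k => X d σ k (run P k) with hx
  set δ : ℝ≥0∞ := (2 : ℝ≥0∞)⁻¹ ^ (1 / 2 : ℝ) with hδ
  have hδ1 : δ < 1 := by
    rw [hδ]
    exact rpow_lt_one' (ENNReal.inv_lt_one.2 (by norm_num)) (by norm_num)
  set s : ℕ → ℝ≥0∞ := fun j => C * δ ^ j + (2 : ℝ≥0∞)⁻¹ ^ (j + 1) with hs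
  have hxa : ∀ j, x (a (j + 1)) ^ rr (j + 1) ≤ δ ^ j := by
    intro j
    have h1 : x (a (j + 1)) ^ rr j ≤ ε j := (hG j).2.1
    have hεle : ε j ≤ 1 := by
      simp only [hε]
      exact pow_le_one₀ zero_le (by simp)
    have h2 : x (a (j + 1)) ≤ 1 := le_one_of_rpow (by have := rr_gt_one j; linarith) (h1.trans hεle)
    calc x (a (j + 1)) ^ rr (j + 1) ≤ x (a (j + 1)) ^ (rr j * (1 / 2)) := by
          apply rpow_anti h2
          have := rr_le_two j
          have := rr_gt_one (j + 1)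
          linarith
      _ = (x (a (j + 1)) ^ rr j) ^ (1 / 2 : ℝ) := by rw [ENNReal.rpow_mul]
      _ ≤ (ε j) ^ (1 / 2 : ℝ) := ENNReal.rpow_le_rpow h1 (by norm_num)
      _ = δ ^ j := by
          simp only [hε, hδ]
          rw [← ENNReal.rpow_natCast, ← ENNReal.rpow_natCast, ← ENNReal.rpow_mul,
            ← ENNReal.rpow_mul, mul_comm]
  have hstage : ∀ j, ∑ l ∈ Finset.Ico (a (j + 1)) (a (j + 2)), x l ^ rr (j + 1) ≤ s j := by
    intro j
    refine (hG (j + 1)).1.trans ?_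
    have h2 := rr_gt_one (j + 1)
    exact add_le_add (mul_le_mul' (Cg_mono hdn hσ h2.le) (hxa j)) le_rfl
  have hsum : ∑' j, s j ≠ ⊤ := by
    simp only [hs]
    rw [ENNReal.tsum_add, ENNReal.tsum_mul_left, ENNReal.tsum_geometric]
    apply ENNReal.add_ne_top.2
    constructor
    · apply ENNReal.mul_ne_top hCt
      rw [Ne, ENNReal.inv_eq_top, tsub_eq_zero_iff_le, not_le]
      exact hδ1
    · have : ∑' j : ℕ, (2 : ℝ≥0∞)⁻¹ ^ (j + 1) ≤ ∑' j : ℕ, (2 : ℝ≥0∞)⁻¹ ^ j :=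
        ENNReal.tsum_comp_le_tsum_of_injective (add_left_injective 1) _
      refine ne_top_of_le_ne_top ?_ this
      rw [ENNReal.tsum_geometric]
      simp
  have hs0 : Filter.Tendsto s Filter.atTop (nhds 0) := ENNReal.tendsto_atTop_zero_of_tsum_ne_top hsum
  obtain ⟨j0, hj0⟩ := Filter.eventually_atTop.1
    (((tendsto_order.1 hs0).2 1 one_pos).and ((tendsto_order.1
      ((Filter.tendsto_add_atTop_iff_nat 1).2 rr_tendsto)).2 r hr))
  have hstage' : ∀ j, j0 ≤ j → ∑ l ∈ Finset.Ico (a (j + 1)) (a (j + 2)), x l ^ r ≤ s j := by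
    intro j hj
    refine le_trans ?_ (hstage j)
    apply Finset.sum_le_sum
    intro l hl
    have h1 : x l ^ rr (j + 1) ≤ 1 := by
      calc x l ^ rr (j + 1) ≤ ∑ l ∈ Finset.Ico (a (j + 1)) (a (j + 2)), x l ^ rr (j + 1) :=
            Finset.single_le_sum (f := fun l => x l ^ rr (j + 1)) (fun _ _ => zero_le) hl
        _ ≤ s j := hstage j
        _ ≤ 1 := (hj0 j hj).1.le
    have h2 : x l ≤ 1 := le_one_of_rpow (by have := rr_gt_one (j + 1); linarith) h1
    exact rpow_anti h2 (hj0 j hj).2.le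
  set A := ∑ l ∈ Finset.range (a (j0 + 1)), x l ^ r with hA
  have hAt : A ≠ ⊤ := by
    rw [hA]
    apply ENNReal.sum_ne_top.2
    intro l _
    exact ENNReal.rpow_ne_top_of_nonneg (by linarith) (X_lt_top d σ hσ P l).ne
  have hpart : ∀ i, ∑ l ∈ Finset.range (a (j0 + i + 1)), x l ^ r ≤
      A + ∑ j ∈ Finset.range i, s (j0 + j) := by
    intro i
    induction i with
    | zero => simp [hA]
    | succ i ih =>
      have h1 := Finset.sum_range_add_sum_Ico (fun l => x l ^ r)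
        (show a (j0 + i + 1) ≤ a (j0 + i + 2) from ha.monotone (by omega))
      have h2 := hstage' (j0 + i) (by omega)
      calc ∑ l ∈ Finset.range (a (j0 + (i + 1) + 1)), x l ^ r
          = ∑ l ∈ Finset.range (a (j0 + i + 1)), x l ^ r +
            ∑ l ∈ Finset.Ico (a (j0 + i + 1)) (a (j0 + i + 2)), x l ^ r := h1.symm
        _ ≤ (A + ∑ j ∈ Finset.range i, s (j0 + j)) + s (j0 + i) := add_le_add ih h2
        _ = A + ∑ j ∈ Finset.range (i + 1), s (j0 + j) := by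
            rw [Finset.sum_range_succ, add_assoc]
  have hbound : ∀ N, ∑ l ∈ Finset.range N, x l ^ r ≤ A + ∑' j, s j := by
    intro N
    calc ∑ l ∈ Finset.range N, x l ^ r ≤ ∑ l ∈ Finset.range (a (j0 + N + 1)), x l ^ r := by
          apply Finset.sum_le_sum_of_subset
          apply Finset.range_mono
          exact (by omega : N ≤ j0 + N + 1).trans ha.le_apply
      _ ≤ A + ∑ j ∈ Finset.range N, s (j0 + j) := hpart N
      _ ≤ A + ∑' j, s (j0 + j) := by gcongr; exact ENNReal.sum_le_tsum _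
      _ ≤ A + ∑' j, s j :=
          add_le_add le_rfl (ENNReal.tsum_comp_le_tsum_of_injective (add_right_injective j0) s)
  refine lt_of_le_of_lt ?_ (ENNReal.add_ne_top.2 ⟨hAt, hsum⟩).lt_top
  rw [ENNReal.tsum_eq_iSup_nat]
  exact iSup_le hbound

end Pool.Agent.H761R2.Besov
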