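import Pool.Agent.H761R2.Besov.Est
import Pool.Agent.H761R2.Besov.Geom

/-!
# The discrete measures of a mass tree
-/

set_option autoImplicit false

open scoped ENNReal Topology
open Set MeasureTheory Filter Metric

namespace Pool.Agent.H761R2.Besov

/-- the discrete measure at level `J` -/
noncomputable def μJ {n : ℕ} (P : ℕ → Set (Idx n)) (J : ℕ) : Measure (EE n) :=
  Measure.sum (fun z : Idx n => run P J z • Measure.dirac (pt J z))

lemma lintegral_μJ {n : ℕ} (P : ℕ → Set (Idx n)) (J : ℕ) (f : EE n → ℝ≥0∞) (hf : Measurable f) :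
    ∫⁻ x, f x ∂(μJ P J) = ∑' z, run P J z * f (pt J z) := by
  unfold μJ
  rw [lintegral_sum_measure]
  congr 1
  funext z
  rw [lintegral_smul_measure, lintegral_dirac' _ hf, smul_eq_mul]

lemma μJ_apply {n : ℕ} (P : ℕ → Set (Idx n)) (J : ℕ) {S : Set (EE n)} (hS : MeasurableSet S) :
    μJ P J S = ∑' z, run P J z * S.indicator (fun _ => 1) (pt J z) := by
  rw [← lintegral_indicator_one hS, lintegral_μJ P J _ (measurable_one.indicator hS)]
  rfl

instance {n : ℕ} (P : ℕ → Set (Idx n)) (J : ℕ) : IsProbabilityMeasure (μJ P J) := by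
  constructor
  rw [μJ_apply P J MeasurableSet.univ]
  simp [run_sum]

/-- neighbouring offsets -/
noncomputable def Box (n k : ℕ) : Finset (Idx n) := Finset.Icc (fun _ => -(2 * k : ℤ)) (fun _ => (2 * k : ℤ))

lemma anc_near {n : ℕ} (k J m : ℕ) (hm : m ≤ J) (w w' : Idx n)
    (h : dist (pt J w') (pt J w) ≤ 2 * (k * tm m)) :
    anc (J - m) w' - anc (J - m) w ∈ Box n k := by
  unfold Box
  rw [Finset.mem_Icc]
  have key : ∀ i, |w' i - w i| ≤ 2 * k * 2 ^ (J - m) := by
    intro i
    have h1 : |(w' i : ℝ) / 2 ^ J - (w i : ℝ) / 2 ^ J| ≤ 2 * (k * tm m) := by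
      refine le_trans ?_ h
      rw [dist_eq_norm]
      have := PiLp.norm_apply_le (pt J w' - pt J w) i
      rw [Real.norm_eq_abs] at this
      exact this
    rw [← sub_div, abs_div, abs_of_pos (by positivity : (0 : ℝ) < 2 ^ J),
      div_le_iff₀ (by positivity)] at h1
    have h2 : 2 * ((k : ℝ) * tm m) * 2 ^ J = 2 * k * 2 ^ (J - m) := by
      have : (2 : ℝ) ^ J = 2 ^ m * 2 ^ (J - m) := by
        rw [← pow_add]; congr 1; omega
      unfold tm
      rw [this, one_div, inv_pow]
      field_simp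
    rw [h2] at h1
    exact_mod_cast h1
  have hD : (0 : ℤ) < 2 ^ (J - m) := by positivity
  have h3 : ∀ (a b : ℤ), a - b ≤ 2 * k * 2 ^ (J - m) → a / 2 ^ (J - m) - b / 2 ^ (J - m) ≤ 2 * k := by
    intro a b hab
    have : a / 2 ^ (J - m) ≤ (b + 2 * k * 2 ^ (J - m)) / 2 ^ (J - m) :=
      Int.ediv_le_ediv hD (by linarith)
    rw [Int.add_mul_ediv_right _ _ hD.ne'] at this
    linarith
  constructor
  · intro i
    have h4 := (abs_le.1 (key i)).1
    have := h3 (w i) (w' i) (by linarith)
    simp only [Pi.sub_apply, anc_apply]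
    linarith
  · intro i
    have h4 := (abs_le.1 (key i)).2
    have := h3 (w' i) (w i) (by linarith)
    simp only [Pi.sub_apply, anc_apply]
    linarith

/-- mass of the neighbours -/
noncomputable def nb {n : ℕ} (P : ℕ → Set (Idx n)) (k m : ℕ) (v : Idx n) : ℝ≥0∞ :=
  ∑ e ∈ Box n k, run P m (v + e)

lemma ball_le {n : ℕ} (P : ℕ → Set (Idx n)) (k J m : ℕ) (hm : m ≤ J) (w : Idx n) :
    μJ P J (closedBall (pt J w) (2 * (k * tm m))) ≤ nb P k m (anc (J - m) w) := by
  classical
  rw [μJ_apply P J measurableSet_closedBall]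
  calc ∑' z, run P J z * (closedBall (pt J w) (2 * (k * tm m))).indicator (fun _ => 1) (pt J z)
      ≤ ∑' z, ∑ e ∈ Box n k, run P J z *
          (if anc (J - m) z = anc (J - m) w + e then 1 else 0) := by
        apply ENNReal.tsum_le_tsum
        intro z
        by_cases hz : pt J z ∈ closedBall (pt J w) (2 * (k * tm m))
        · rw [indicator_of_mem hz, ← Finset.mul_sum]
          gcongr
          have hmem := anc_near k J m hm w z hz
          calc (1 : ℝ≥0∞) = if anc (J - m) z = anc (J - m) w +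
                (anc (J - m) z - anc (J - m) w) then 1 else 0 := by simp
            _ ≤ _ := Finset.single_le_sum (f := fun e => if anc (J - m) z =
                anc (J - m) w + e then (1 : ℝ≥0∞) else 0) (fun _ _ => zero_le) hmem
        · rw [indicator_of_notMem hz, mul_zero]
          exact zero_le
    _ = ∑ e ∈ Box n k, ∑' z, run P J z *
          (if anc (J - m) z = anc (J - m) w + e then 1 else 0) := by
        rw [Summable.tsum_finsetSum fun _ _ => ENNReal.summable]
    _ = nb P k m (anc (J - m) w) := by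
        unfold nb
        apply Finset.sum_congr rfl
        intro e _
        have h := run_sum_anc P m (J - m) (fun v => if v = anc (J - m) w + e then (1 : ℝ≥0∞) else 0)
        rw [Nat.add_sub_cancel' hm] at h
        rw [h]
        simp

lemma sum_nb_le {n : ℕ} (P : ℕ → Set (Idx n)) (k m : ℕ) {σ : ℝ} (hσ : 0 < σ) :
    ∑' v, run P m v * nb P k m v ^ σ ≤
      (Box n k).card ^ (1 + σ) * ∑' v, run P m v ^ (1 + σ) := by
  have hle : ∀ v, run P m v ≤ nb P k m v := by
    intro v
    unfold nb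
    have h0 : (0 : Idx n) ∈ Box n k := by
      unfold Box
      rw [Finset.mem_Icc]
      constructor <;> intro i <;> simp
    calc run P m v = run P m (v + 0) := by rw [add_zero]
      _ ≤ _ := Finset.single_le_sum (f := fun e => run P m (v + e)) (fun _ _ => zero_le) h0
  calc ∑' v, run P m v * nb P k m v ^ σ ≤ ∑' v, nb P k m v ^ (1 + σ) := by
        apply ENNReal.tsum_le_tsum
        intro v
        rw [ENNReal.rpow_add_of_nonneg _ _ (by norm_num) hσ.le, ENNReal.rpow_one]
        gcongr
        exact hle v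
    _ ≤ ∑' v, ((Box n k).card : ℝ≥0∞) ^ σ * ∑ e ∈ Box n k, run P m (v + e) ^ (1 + σ) := by
        apply ENNReal.tsum_le_tsum
        intro v
        have := ENNReal.rpow_sum_le_const_mul_sum_rpow (Box n k) (fun e => run P m (v + e))
          (p := 1 + σ) (by linarith)
        rw [show 1 + σ - 1 = σ by ring] at this
        exact this
    _ = ((Box n k).card : ℝ≥0∞) ^ σ * ∑ e ∈ Box n k, ∑' v, run P m (v + e) ^ (1 + σ) := by
        rw [ENNReal.tsum_mul_left, Summable.tsum_finsetSum fun _ _ => ENNReal.summable]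
    _ = ((Box n k).card : ℝ≥0∞) ^ σ * ∑ e ∈ Box n k, ∑' v, run P m v ^ (1 + σ) := by
        congr 1
        apply Finset.sum_congr rfl
        intro e _
        exact (Equiv.addRight e).tsum_eq (fun v => run P m v ^ (1 + σ))
    _ = _ := by
        rw [Finset.sum_const, nsmul_eq_mul, ← mul_assoc, add_comm 1 σ,
          ENNReal.rpow_add_of_nonneg _ _ hσ.le (by norm_num), ENNReal.rpow_one]

lemma ofReal_tm_rpow (m : ℕ) (α : ℝ) : ENNReal.ofReal (tm m ^ α) = 2 ^ (-((m : ℝ) * α)) := by
  have h1 : tm m = (2 : ℝ) ^ (-(m : ℝ)) := by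
    unfold tm
    rw [Real.rpow_neg (by norm_num), Real.rpow_natCast, one_div, inv_pow]
  have h2 : (2 : ℝ≥0∞) = ENNReal.ofReal 2 := by simp
  rw [h1, ← Real.rpow_mul (by norm_num), h2, ENNReal.ofReal_rpow_of_pos (by norm_num)]
  congr 2
  ring

lemma ofReal_tm_pow (m n : ℕ) : ENNReal.ofReal (tm m ^ n) = 2 ^ (-((m : ℝ) * n)) := by
  rw [← ofReal_tm_rpow, Real.rpow_natCast]

lemma Nm_pow_le {n : ℕ} [NeZero n] (P : ℕ → Set (Idx n)) (k J m : ℕ) (hm : m ≤ J) {p' : ℝ}
    (hp' : 1 < p') :
    Nm k p' (μJ P J) (tm m) ^ p' ≤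
      (ENNReal.ofReal ((k : ℝ) ^ n) * volume (ball (0 : EE n) 1)) * 2 ^ (-((m : ℝ) * n)) *
        ((Box n k).card ^ p' * ∑' v, run P m v ^ p') := by
  set μ := μJ P J with hμ
  set ρ : ℝ := k * tm m with hρ
  have hρ0 : 0 ≤ ρ := mul_nonneg (Nat.cast_nonneg k) (tm_pos m).le
  have hβ := measurable_ball μ ρ
  have hβ2 := measurable_ball μ (2 * ρ)
  unfold Nm
  rw [← ENNReal.rpow_mul, one_div, inv_mul_cancel₀ (by linarith), ENNReal.rpow_one, ← hρ]
  have hvol : ∀ x : EE n, volume (closedBall x ρ) =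
      (ENNReal.ofReal ((k : ℝ) ^ n) * volume (ball (0 : EE n) 1)) * 2 ^ (-((m : ℝ) * n)) := by
    intro x
    rw [Measure.addHaar_closedBall volume x hρ0]
    have hfin : Module.finrank ℝ (EE n) = n := by simp
    rw [hfin, hρ, mul_pow, ENNReal.ofReal_mul (by positivity), ofReal_tm_pow]
    ring
  set V := (ENNReal.ofReal ((k : ℝ) ^ n) * volume (ball (0 : EE n) 1)) * 2 ^ (-((m : ℝ) * n))
    with hV
  calc ∫⁻ y, μ (closedBall y ρ) ^ p' = ∫⁻ y, μ (closedBall y ρ) ^ (p' - 1) * μ (closedBall y ρ) := by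
        congr 1
        funext y
        conv_lhs => rw [show p' = (p' - 1) + 1 by ring]
        rw [ENNReal.rpow_add_of_nonneg _ _ (by linarith) (by norm_num), ENNReal.rpow_one]
    _ = ∫⁻ x, (∫⁻ y in closedBall x ρ, μ (closedBall y ρ) ^ (p' - 1)) ∂μ := by
        rw [int_ball μ _ (hβ.pow_const _)]
    _ ≤ ∫⁻ x, V * μ (closedBall x (2 * ρ)) ^ (p' - 1) ∂μ := by
        apply lintegral_mono
        intro x
        beta_reduce
        calc ∫⁻ y in closedBall x ρ, μ (closedBall y ρ) ^ (p' - 1)
            ≤ ∫⁻ y in closedBall x ρ, μ (closedBall x (2 * ρ)) ^ (p' - 1) := by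
              apply setLIntegral_mono' measurableSet_closedBall
              intro y hy
              apply ENNReal.rpow_le_rpow _ (by linarith)
              apply measure_mono
              intro z hz
              rw [mem_closedBall] at *
              have := dist_triangle z y x
              linarith
          _ = V * μ (closedBall x (2 * ρ)) ^ (p' - 1) := by
              rw [setLIntegral_const, hvol, mul_comm]
    _ = V * ∫⁻ x, μ (closedBall x (2 * ρ)) ^ (p' - 1) ∂μ := by
        rw [lintegral_const_mul _ (hβ2.pow_const _)]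
    _ ≤ V * ((Box n k).card ^ p' * ∑' v, run P m v ^ p') := by
        refine mul_le_mul_right ?_ V
        rw [hμ, lintegral_μJ P J _ (hβ2.pow_const _)]
        calc ∑' z, run P J z * μJ P J (closedBall (pt J z) (2 * ρ)) ^ (p' - 1)
            ≤ ∑' z, run P J z * nb P k m (anc (J - m) z) ^ (p' - 1) := by
              apply ENNReal.tsum_le_tsum
              intro z
              refine mul_le_mul_right (ENNReal.rpow_le_rpow (ball_le P k J m hm z) (by linarith)) _
          _ = ∑' v, run P m v * nb P k m v ^ (p' - 1) := by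
              have h := run_sum_anc P m (J - m) (fun v => nb P k m v ^ (p' - 1))
              rw [Nat.add_sub_cancel' hm] at h
              exact h
          _ ≤ _ := by
              have := sum_nb_le P k m (σ := p' - 1) (by linarith)
              rw [show 1 + (p' - 1) = p' by ring] at this
              exact this

lemma X_eq {n : ℕ} (d σ : ℝ) (hσ : 0 < σ) (m : ℕ) (w : Idx n → ℝ≥0∞) :
    X d σ m w = 2 ^ ((m : ℝ) * d * σ) * ∑' v, w v ^ (1 + σ) := by
  unfold X
  rw [← ENNReal.tsum_mul_left]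
  congr 1
  funext v
  rw [ENNReal.mul_rpow_of_nonneg _ _ hσ.le, two_rpow_rpow,
    ENNReal.rpow_add_of_nonneg _ _ (by norm_num) hσ.le, ENNReal.rpow_one]
  ring

lemma bm_pow_le {n : ℕ} [NeZero n] (P : ℕ → Set (Idx n)) (k J m : ℕ) (hm : m ≤ J) {p p' α : ℝ}
    (hp : p.HolderConjugate p') :
    bm k α p' (μJ P J) m ^ p' ≤
      ((ENNReal.ofReal ((k : ℝ) ^ n) * volume (ball (0 : EE n) 1)) * (Box n k).card ^ p') *
        X (n - α * p) (p' - 1) m (run P m) := by
  have hp' : 1 < p' := hp.symm.lt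
  have hp'0 : 0 ≤ p' := by linarith
  have hpp : p * p' = p + p' := hp.mul_eq_add
  unfold bm
  rw [ENNReal.mul_rpow_of_nonneg _ _ hp'0, ENNReal.mul_rpow_of_nonneg _ _ hp'0, ofReal_tm_rpow,
    ofReal_tm_pow, ← ENNReal.rpow_neg, neg_neg, two_rpow_rpow, two_rpow_rpow, two_rpow_add,
    X_eq _ _ (by linarith), show 1 + (p' - 1) = p' by ring]
  refine (mul_le_mul_right (Nm_pow_le P k J m hm hp') _).trans (le_of_eq ?_)
  calc 2 ^ (-((m : ℝ) * α) * p' + (m : ℝ) * n * p') *
        ((ENNReal.ofReal ((k : ℝ) ^ n) * volume (ball (0 : EE n) 1)) * 2 ^ (-((m : ℝ) * n)) *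
          ((Box n k).card ^ p' * ∑' v, run P m v ^ p'))
      = ((ENNReal.ofReal ((k : ℝ) ^ n) * volume (ball (0 : EE n) 1)) * (Box n k).card ^ p') *
        ((2 ^ (-((m : ℝ) * α) * p' + (m : ℝ) * n * p') * 2 ^ (-((m : ℝ) * n))) *
          ∑' v, run P m v ^ p') := by ring
    _ = _ := by
        rw [two_rpow_add]
        congr 3
        linear_combination ((m : ℝ) * α) * hpp

end Pool.Agent.H761R2.Besov
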