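import Pool.Agent.H761R2.Besov.Dual

/-!
# The Besov seminorm and the averaged differences
-/

set_option autoImplicit false

open scoped ENNReal Topology
open Set MeasureTheory Filter Metric

namespace Pool.Agent.H761R2.Besov

/-- `L^p` size of a difference -/
noncomputable def NN {n : ℕ} (k : ℕ) (p : ℝ) (u : EE n → ℝ) (h : EE n) : ℝ≥0∞ :=
  (∫⁻ y, ‖dl k h u y‖ₑ ^ p) ^ (1 / p)

lemma NN_measurable {n : ℕ} (k : ℕ) (p : ℝ) {u : EE n → ℝ} (hu : Continuous u) :
    Measurable (NN k p u) := by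
  unfold NN
  apply Measurable.pow_const
  have : Measurable (fun q : EE n × EE n => ‖dl k q.1 u q.2‖ₑ ^ p) :=
    (dl_continuous k hu).measurable.enorm.pow_const _
  exact this.lintegral_prod_right'

/-- annulus at scale `t` -/
def At (n : ℕ) (t : ℝ) : Set (EE n) := {h | t / 2 < ‖h‖ ∧ ‖h‖ ≤ t}

lemma measurableSet_At (n : ℕ) (t : ℝ) : MeasurableSet (At n t) :=
  (measurableSet_lt measurable_const measurable_norm).inter
    (measurableSet_le measurable_norm measurable_const)

lemma lintegral_Ann_scale {n : ℕ} (φ : EE n → ℝ≥0∞) (hφ : Measurable φ) {t : ℝ} (ht : 0 < t) :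
    ∫⁻ z, φ (t • z) ∂(lam n) = κi n * ((ENNReal.ofReal (t ^ n))⁻¹ * ∫⁻ h in At n t, φ h) := by
  unfold lam
  rw [lintegral_smul_measure, smul_eq_mul]
  congr 1
  have hfin : Module.finrank ℝ (EE n) = n := by simp
  have h1 : ∫⁻ y in Ann n, φ (t • y) = ∫⁻ y, (At n t).indicator φ (t • y) := by
    rw [← lintegral_indicator (measurableSet_Ann n)]
    congr 1
    funext y
    have hiff : y ∈ Ann n ↔ t • y ∈ At n t := by
      unfold Ann At
      simp only [mem_ofPred_eq, norm_smul, Real.norm_eq_abs, abs_of_pos ht]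
      constructor
      · rintro ⟨h1, h2⟩
        constructor <;> nlinarith
      · rintro ⟨h1, h2⟩
        constructor
        · by_contra h; push Not at h; nlinarith
        · by_contra h; push Not at h; nlinarith
    by_cases hy : y ∈ Ann n
    · rw [indicator_of_mem hy, indicator_of_mem (hiff.1 hy)]
    · rw [indicator_of_notMem hy, indicator_of_notMem (fun h => hy (hiff.2 h))]
  have hm : Measurable ((At n t).indicator φ) := hφ.indicator (measurableSet_At n t)
  rw [h1]
  have h2 : ∫⁻ y : EE n, (At n t).indicator φ (t • y) =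
      ∫⁻ y, (At n t).indicator φ y ∂(Measure.map (fun y : EE n => t • y) volume) := by
    rw [lintegral_map hm (measurable_const_smul t)]
  rw [h2, Measure.map_addHaar_smul volume ht.ne', lintegral_smul_measure, smul_eq_mul,
    lintegral_indicator (measurableSet_At n t), hfin,
    abs_of_pos (by positivity), ENNReal.ofReal_inv_of_pos (by positivity)]

lemma DD_pow_le {n : ℕ} [NeZero n] (k : ℕ) {t p q α : ℝ} (ht : 0 < t) (hq : 1 ≤ q)
    (hα : 0 < α) {u : EE n → ℝ} (hu : Nice u) :
    ((ENNReal.ofReal (t ^ α))⁻¹ * DD k t p u) ^ q ≤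
      κi n * ∫⁻ h in At n t, (NN k p u h / ENNReal.ofReal (‖h‖ ^ α)) ^ q /
        ENNReal.ofReal (‖h‖ ^ n) := by
  have hNm := NN_measurable k p hu.1
  have h1 : DD k t p u ^ q ≤ ∫⁻ z, (NN k p u (t • z)) ^ q ∂(lam n) := by
    have hm : AEMeasurable (fun z => NN k p u (t • z)) (lam n) :=
      (hNm.comp (measurable_const_smul t)).aemeasurable
    have h := eLpNorm_le_eLpNorm_of_exponent_le (μ := lam n) (p := 1) (q := ENNReal.ofReal q)
      (by rw [← ENNReal.ofReal_one]; exact ENNReal.ofReal_le_ofReal hq)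
      (f := fun z => NN k p u (t • z)) hm.aestronglyMeasurable
    rw [eLpNorm_one_eq_lintegral_enorm, eLpNorm_eq_lintegral_rpow_enorm_toReal
      (by simp; linarith) ENNReal.ofReal_ne_top] at h
    rw [ENNReal.toReal_ofReal (by linarith)] at h
    simp only [enorm_eq_self] at h
    have h' := ENNReal.rpow_le_rpow h (by linarith : 0 ≤ q)
    rw [← ENNReal.rpow_mul, one_div, inv_mul_cancel₀ (by linarith), ENNReal.rpow_one] at h'
    exact h'
  have hmq : Measurable (fun h => NN k p u h ^ q) := hNm.pow_const q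
  rw [lintegral_Ann_scale (fun h => NN k p u h ^ q) hmq ht] at h1
  rw [ENNReal.mul_rpow_of_nonneg _ _ (by linarith)]
  calc (ENNReal.ofReal (t ^ α))⁻¹ ^ q * DD k t p u ^ q
      ≤ (ENNReal.ofReal (t ^ α))⁻¹ ^ q *
        (κi n * ((ENNReal.ofReal (t ^ n))⁻¹ * ∫⁻ h in At n t, NN k p u h ^ q)) := by gcongr
    _ = κi n * ∫⁻ h in At n t, ((ENNReal.ofReal (t ^ α))⁻¹ ^ q * (ENNReal.ofReal (t ^ n))⁻¹) *
          NN k p u h ^ q := by
        rw [lintegral_const_mul _ hmq]
        ring
    _ ≤ _ := by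
        refine mul_le_mul_right ?_ (κi n)
        apply setLIntegral_mono' (measurableSet_At n t)
        intro h hh
        have hh0 : 0 < ‖h‖ := lt_of_le_of_lt (by positivity) hh.1
        rw [ENNReal.div_eq_inv_mul, ENNReal.div_eq_inv_mul,
          ENNReal.mul_rpow_of_nonneg _ _ (by linarith : 0 ≤ q), ← mul_assoc,
          mul_comm ((ENNReal.ofReal (‖h‖ ^ n))⁻¹)]
        gcongr
        · exact hh.2
        · exact hh.2

/-- dyadic scales -/
noncomputable def tm (m : ℕ) : ℝ := (1 / 2) ^ m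

lemma tm_pos (m : ℕ) : 0 < tm m := by unfold tm; positivity

lemma tm_succ (m : ℕ) : tm (m + 1) = tm m / 2 := by unfold tm; rw [pow_succ]; ring

lemma At_disjoint (n : ℕ) : Pairwise (Function.onFun Disjoint (fun m : ℕ => At n (tm m))) := by
  have key : ∀ i j : ℕ, i < j → Disjoint (At n (tm i)) (At n (tm j)) := by
    intro i j hij
    rw [Set.disjoint_left]
    intro h h1 h2
    have : tm j ≤ tm (i + 1) := by
      unfold tm
      exact pow_le_pow_of_le_one (by norm_num) (by norm_num) hij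
    rw [tm_succ] at this
    have := h1.1
    have := h2.2
    linarith
  intro i j hij
  rcases lt_or_gt_of_ne hij with h | h
  · exact key i j h
  · exact (key j i h).symm

/-- the integral defining the seminorm, with the alternating difference -/
noncomputable def semi {n : ℕ} (k : ℕ) (α p q : ℝ) (u : EE n → ℝ) : ℝ≥0∞ :=
  ∫⁻ h, (NN k p u h / ENNReal.ofReal (‖h‖ ^ α)) ^ q / ENNReal.ofReal (‖h‖ ^ n)

lemma sum_DD_le {n : ℕ} [NeZero n] (k : ℕ) {p q α : ℝ} (hq : 1 ≤ q)
    (hα : 0 < α) {u : EE n → ℝ} (hu : Nice u) :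
    ∑' m, ((ENNReal.ofReal (tm m ^ α))⁻¹ * DD k (tm m) p u) ^ q ≤ κi n * semi k α p q u := by
  calc ∑' m, ((ENNReal.ofReal (tm m ^ α))⁻¹ * DD k (tm m) p u) ^ q
      ≤ ∑' m, κi n * ∫⁻ h in At n (tm m), (NN k p u h / ENNReal.ofReal (‖h‖ ^ α)) ^ q /
        ENNReal.ofReal (‖h‖ ^ n) :=
        ENNReal.tsum_le_tsum fun m => DD_pow_le k (tm_pos m) hq hα hu
    _ = κi n * ∫⁻ h in ⋃ m, At n (tm m), (NN k p u h / ENNReal.ofReal (‖h‖ ^ α)) ^ q /
        ENNReal.ofReal (‖h‖ ^ n) := by
        rw [ENNReal.tsum_mul_left, lintegral_iUnion (fun m => measurableSet_At n (tm m))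
          (At_disjoint n)]
    _ ≤ _ := by
        gcongr
        exact setLIntegral_le_lintegral _ _

end Pool.Agent.H761R2.Besov
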