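import Pool.Agent.H761R2.Besov.Tree

/-!
# One stage of the construction
-/

set_option autoImplicit false

open scoped ENNReal
open Set

namespace Pool.Agent.H761R2.Besov

lemma two_rpow_add (a b : ℝ) : (2 : ℝ≥0∞) ^ a * 2 ^ b = 2 ^ (a + b) :=
  (ENNReal.rpow_add a b (by norm_num) (by norm_num)).symm

lemma two_rpow_rpow (a b : ℝ) : ((2 : ℝ≥0∞) ^ a) ^ b = 2 ^ (a * b) := (ENNReal.rpow_mul _ _ _).symm

lemma two_rpow_pow (a : ℝ) (i : ℕ) : ((2 : ℝ≥0∞) ^ a) ^ i = 2 ^ (a * i) := by
  rw [← ENNReal.rpow_natCast, two_rpow_rpow]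

lemma two_pow_eq (i : ℕ) : (2 : ℝ≥0∞) ^ i = 2 ^ (i : ℝ) := (ENNReal.rpow_natCast _ _).symm

lemma two_rpow_mono {a b : ℝ} (h : a ≤ b) : (2 : ℝ≥0∞) ^ a ≤ 2 ^ b :=
  ENNReal.rpow_le_rpow_of_exponent_le (by norm_num) h

lemma two_rpow_ne_zero (a : ℝ) : (2 : ℝ≥0∞) ^ a ≠ 0 := by
  simp [ENNReal.rpow_eq_zero_iff]

lemma two_rpow_ne_top (a : ℝ) : (2 : ℝ≥0∞) ^ a ≠ ⊤ := by
  simp [ENNReal.rpow_eq_top_iff]

lemma div_two_rpow (x : ℝ≥0∞) (a : ℝ) : x / 2 ^ a = x * 2 ^ (-a) := by
  rw [ENNReal.rpow_neg, ENNReal.div_eq_inv_mul, mul_comm]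

lemma exists_log {x : ℝ≥0∞} (h0 : x ≠ 0) (h1 : x ≠ ⊤) : ∃ l : ℝ, x = (2 : ℝ≥0∞) ^ l := by
  refine ⟨Real.logb 2 x.toReal, ?_⟩
  have hx : 0 < x.toReal := ENNReal.toReal_pos h0 h1
  have h2 : (2 : ℝ≥0∞) = ENNReal.ofReal 2 := by simp
  rw [h2, ENNReal.ofReal_rpow_of_pos (by norm_num), Real.rpow_logb (by norm_num) (by norm_num) hx,
    ENNReal.ofReal_toReal h1]

/-- The energy at level `k`. -/
noncomputable def X {n : ℕ} (d σ : ℝ) (k : ℕ) (m : Idx n → ℝ≥0∞) : ℝ≥0∞ :=
  ∑' z, m z * (m z * 2 ^ ((k : ℝ) * d)) ^ σ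

lemma X_spread {n : ℕ} (d σ : ℝ) (hσ : 0 < σ) (P : ℕ → Set (Idx n)) (k t : ℕ)
    (hP : ∀ i < t, P (k + i) = ∅) :
    X d σ (k + t) (run P (k + t)) = (2 : ℝ≥0∞) ^ (-((n - d) * σ * t)) * X d σ k (run P k) := by
  unfold X
  have h1 : ∀ z : Idx n, run P (k + t) z * (run P (k + t) z * 2 ^ (((k + t : ℕ) : ℝ) * d)) ^ σ =
      run P (k + t) z * ((2 : ℝ≥0∞) ^ (-((n - d) * σ * t)) *
        (run P k (anc t z) * 2 ^ ((k : ℝ) * d)) ^ σ) := by
    intro z
    congr 1
    rw [run_spread_le P k t hP z, two_pow_eq, two_rpow_pow, div_two_rpow, mul_assoc, two_rpow_add,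
      ENNReal.mul_rpow_of_nonneg _ _ hσ.le, ENNReal.mul_rpow_of_nonneg _ _ hσ.le, two_rpow_rpow,
      two_rpow_rpow, mul_left_comm, two_rpow_add]
    congr 2
    push_cast
    ring
  simp_rw [h1]
  have h2 := run_sum_anc P k t (fun v => (2 : ℝ≥0∞) ^ (-((n - d) * σ * t)) *
        (run P k v * 2 ^ ((k : ℝ) * d)) ^ σ)
  rw [h2, ← ENNReal.tsum_mul_left]
  congr 1
  funext z
  ring

lemma X_lt_top {n : ℕ} (d σ : ℝ) (hσ : 0 < σ) (P : ℕ → Set (Idx n)) (k : ℕ) :
    X d σ k (run P k) < ⊤ := by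
  unfold X
  calc ∑' z, run P k z * (run P k z * 2 ^ ((k : ℝ) * d)) ^ σ
      ≤ ∑' z, run P k z * ((2 : ℝ≥0∞) ^ ((k : ℝ) * d)) ^ σ := by
        apply ENNReal.tsum_le_tsum
        intro z
        gcongr
        calc run P k z * 2 ^ ((k : ℝ) * d) ≤ 1 * 2 ^ ((k : ℝ) * d) := by
              gcongr; exact run_le_one P k z
          _ = _ := one_mul _
    _ = ((2 : ℝ≥0∞) ^ ((k : ℝ) * d)) ^ σ := by rw [ENNReal.tsum_mul_right, run_sum, one_mul]
    _ < ⊤ := by rw [two_rpow_rpow]; exact (two_rpow_ne_top _).lt_top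

/-- number of spreading steps among the first `i`, for a cube that spreads before time `s`,
concentrates between `s` and `p` and spreads afterwards. -/
def sp (i s p : ℕ) : ℕ := min i s + (i - p)

lemma mass_sched {n : ℕ} (P : ℕ → Set (Idx n)) (k : ℕ) (s p : Idx n → ℕ) (hsp : ∀ z, s z ≤ p z)
    (hP : ∀ i, P (k + i) = {v | s (anc i v) ≤ i ∧ i < p (anc i v)}) (i : ℕ) (v : Idx n) :
    run P (k + i) v = 0 ∨
      run P (k + i) v = run P k (anc i v) / (2 ^ n) ^ (sp i (s (anc i v)) (p (anc i v))) := by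
  classical
  induction i generalizing v with
  | zero =>
    right
    simp [anc, sp]
  | succ i ih =>
    have hk : k + (i + 1) = (k + i) + 1 := by ring
    rw [hk, run_succ]
    unfold step
    rw [anc_succ]
    have hsz := hsp (anc i (par v))
    have hih := ih (par v)
    have hPi : par v ∈ P (k + i) ↔ s (anc i (par v)) ≤ i ∧ i < p (anc i (par v)) := by
      rw [hP i]; rfl
    generalize anc i (par v) = z at hsz hih hPi
    by_cases hv : par v ∈ P (k + i)
    · rw [if_pos hv]
      split_ifs with h1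
      · rcases hih with h | h
        · left; exact h
        · right
          rw [h]
          have hv' : s z ≤ i ∧ i < p z := hPi.1 hv
          congr 2
          unfold sp
          omega
      · left; rfl
    · rw [if_neg hv]
      have hv' : ¬ (s z ≤ i ∧ i < p z) := fun h => hv (hPi.2 h)
      rcases hih with h | h
      · left; rw [h]; simp
      · right
        rw [h]
        have : sp (i + 1) (s z) (p z) = sp i (s z) (p z) + 1 := by
          unfold sp
          omega
        rw [this, pow_succ, ENNReal.div_eq_inv_mul, ENNReal.div_eq_inv_mul, ENNReal.div_eq_inv_mul,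
          ENNReal.mul_inv (by simp) (by simp)]
        ring

/-- two-sided geometric weights -/
lemma tsum_two_sided (γ : ℝ≥0∞) (i : ℕ) :
    ∑' j : ℕ, γ ^ ((i - j) + (j - i)) ≤ (1 + γ) * (1 - γ)⁻¹ := by
  have h1 : ∀ j : ℕ, γ ^ ((i - j) + (j - i)) ≤
      (if j < i then γ ^ (i - j) else 0) + (if i ≤ j then γ ^ (j - i) else 0) := by
    intro j
    rcases lt_or_ge j i with h | h
    · rw [if_pos h, if_neg (by omega), add_zero]
      rw [show (i - j) + (j - i) = i - j by omega]
    · rw [if_neg (by omega), if_pos h, zero_add]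
      rw [show (i - j) + (j - i) = j - i by omega]
  calc ∑' j : ℕ, γ ^ ((i - j) + (j - i))
      ≤ ∑' j : ℕ, ((if j < i then γ ^ (i - j) else 0) + (if i ≤ j then γ ^ (j - i) else 0)) :=
        ENNReal.tsum_le_tsum h1
    _ = ∑' j : ℕ, (if j < i then γ ^ (i - j) else 0) +
        ∑' j : ℕ, (if i ≤ j then γ ^ (j - i) else 0) := ENNReal.tsum_add
    _ ≤ γ * (1 - γ)⁻¹ + (1 - γ)⁻¹ := by
        gcongr
        · rw [tsum_eq_sum (s := Finset.range i)]
          · calc ∑ j ∈ Finset.range i, (if j < i then γ ^ (i - j) else 0)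
                = ∑ j ∈ Finset.range i, γ ^ (i - j) := by
                  apply Finset.sum_congr rfl
                  intro j hj
                  rw [if_pos (Finset.mem_range.1 hj)]
              _ = ∑ j ∈ Finset.range i, γ ^ (j + 1) := by
                  rw [← Finset.sum_range_reflect]
                  apply Finset.sum_congr rfl
                  intro j hj
                  have := Finset.mem_range.1 hj
                  congr 1
                  omega
              _ ≤ ∑' j : ℕ, γ ^ (j + 1) := ENNReal.sum_le_tsum _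
              _ = γ * (1 - γ)⁻¹ := by
                  simp_rw [pow_succ']
                  rw [ENNReal.tsum_mul_left, ENNReal.tsum_geometric]
          · intro j hj
            rw [if_neg]
            simpa using hj
        · have : ∀ j : ℕ, (if i ≤ j then γ ^ (j - i) else 0) =
              Function.extend (fun l : ℕ => i + l) (fun l => γ ^ l) 0 j := by
            intro j
            rcases le_or_gt i j with h | h
            · obtain ⟨l, rfl⟩ := Nat.exists_eq_add_of_le h
              rw [if_pos h]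
              have hinj : Function.Injective (fun l : ℕ => i + l) := fun a b h => by simpa using h
              have := hinj.extend_apply (fun l => γ ^ l) 0 l
              beta_reduce at this
              rw [this]
              congr 1
              omega
            · rw [if_neg (by omega), Function.extend_apply']
              · rfl
              · rintro ⟨l, hl⟩
                omega
          simp_rw [this]
          have hinj : Function.Injective (fun l : ℕ => i + l) := fun a b h => by simpa using h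
          rw [tsum_extend_zero hinj, ENNReal.tsum_geometric]
    _ = (1 + γ) * (1 - γ)⁻¹ := by ring

lemma theta_eq (n : ℕ) (d σ l : ℝ) (k i N : ℕ) :
    ((2 : ℝ≥0∞) ^ l / (2 ^ n) ^ N * 2 ^ (((k + i : ℕ) : ℝ) * d)) ^ σ =
      2 ^ ((l - n * N + (k + i) * d) * σ) := by
  rw [two_pow_eq, two_rpow_pow, div_two_rpow, two_rpow_add, two_rpow_add, two_rpow_rpow]
  congr 1
  push_cast
  ring

lemma theta_bound (n : ℕ) (d σ μ l : ℝ) (hσ : 0 < σ) (k s p i : ℕ)
    (hsp : s ≤ p) (hpeak : l + (k + p) * d - n * s ≤ μ + n) :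
    ((2 : ℝ≥0∞) ^ l / (2 ^ n) ^ (sp i s p) * 2 ^ (((k + i : ℕ) : ℝ) * d)) ^ σ ≤
      2 ^ (-((n - d) * σ * i)) * ((2 : ℝ≥0∞) ^ l * 2 ^ ((k : ℝ) * d)) ^ σ +
      2 ^ ((μ + n) * σ) * ((2 : ℝ≥0∞) ^ (-(min d (n - d) * σ))) ^ ((i - p) + (p - i)) := by
  rw [theta_eq n d σ l]
  have hδ1 : min d (n - d) ≤ d := min_le_left _ _
  have hδ2 : min d (n - d) ≤ n - d := min_le_right _ _
  rcases le_or_gt i s with h | h
  · refine le_trans (le_of_eq ?_) le_self_add
    have h1 : sp i s p = i := by unfold sp; omega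
    rw [h1, two_rpow_add, two_rpow_rpow, two_rpow_add]
    congr 1
    ring
  · refine le_trans ?_ le_add_self
    rw [two_rpow_pow, two_rpow_add]
    apply two_rpow_mono
    rcases le_or_gt i p with h2 | h2
    · have h3 : sp i s p = s := by unfold sp; omega
      have h4 : ((((i - p) + (p - i) : ℕ)) : ℝ) = (p : ℝ) - i := by
        rw [show (i - p) + (p - i) = p - i by omega, Nat.cast_sub h2]
      rw [h3, h4]
      have h5 : (0 : ℝ) ≤ (p : ℝ) - i := by
        have : (i : ℝ) ≤ p := by exact_mod_cast h2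
        linarith
      have h6 : min d (n - d) * (p - i) ≤ d * (p - i) := mul_le_mul_of_nonneg_right hδ1 h5
      have h7 : (l - n * s + (k + i) * d) ≤ (μ + n) - min d (n - d) * (p - i) := by nlinarith
      have := mul_le_mul_of_nonneg_right h7 hσ.le
      linarith
    · have h3 : ((sp i s p : ℕ) : ℝ) = s + ((i : ℝ) - p) := by
        have : sp i s p = s + (i - p) := by unfold sp; omega
        rw [this]
        push_cast [Nat.cast_sub h2.le]
        ring
      have h4 : ((((i - p) + (p - i) : ℕ)) : ℝ) = (i : ℝ) - p := by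
        rw [show (i - p) + (p - i) = i - p by omega, Nat.cast_sub h2.le]
      rw [h3, h4]
      have h5 : (0 : ℝ) ≤ (i : ℝ) - p := by
        have : (p : ℝ) ≤ i := by exact_mod_cast h2.le
        linarith
      have h6 : min d (n - d) * (i - p) ≤ (n - d) * (i - p) := mul_le_mul_of_nonneg_right hδ2 h5
      have h7 : (l - n * (s + (i - p)) + (k + i) * d) ≤ (μ + n) - min d (n - d) * (i - p) := by
        nlinarith
      have := mul_le_mul_of_nonneg_right h7 hσ.le
      linarith

/-- The energy during a scheduled phase. -/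
lemma X_sched {n : ℕ} (d σ μ : ℝ) (hσ : 0 < σ) (P : ℕ → Set (Idx n))
    (k : ℕ) (s p : Idx n → ℕ) (hsp : ∀ z, s z ≤ p z)
    (hP : ∀ i, P (k + i) = {v | s (anc i v) ≤ i ∧ i < p (anc i v)})
    (hpeak : ∀ z, run P k z ≠ 0 → ∀ l : ℝ, run P k z = 2 ^ l →
      l + (k + p z) * d - n * s z ≤ μ + n) (i : ℕ) :
    X d σ (k + i) (run P (k + i)) ≤ 2 ^ (-((n - d) * σ * i)) * X d σ k (run P k) +
      2 ^ ((μ + n) * σ) *
        ∑' z, run P k z * ((2 : ℝ≥0∞) ^ (-(min d (n - d) * σ))) ^ ((i - p z) + (p z - i)) := by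
  have h1 : X d σ (k + i) (run P (k + i)) ≤ ∑' z, run P (k + i) z *
      (run P k (anc i z) / (2 ^ n) ^ (sp i (s (anc i z)) (p (anc i z))) *
        2 ^ (((k + i : ℕ) : ℝ) * d)) ^ σ := by
    unfold X
    apply ENNReal.tsum_le_tsum
    intro z
    rcases mass_sched P k s p hsp hP i z with h | h
    · rw [h]; simp
    · rw [← h]
  refine h1.trans ?_
  rw [run_sum_anc P k i (fun z => (run P k z / (2 ^ n) ^ (sp i (s z) (p z)) *
        2 ^ (((k + i : ℕ) : ℝ) * d)) ^ σ)]
  calc ∑' z, run P k z * (run P k z / (2 ^ n) ^ (sp i (s z) (p z)) *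
        2 ^ (((k + i : ℕ) : ℝ) * d)) ^ σ
      ≤ ∑' z, (2 ^ (-((n - d) * σ * i)) * (run P k z * (run P k z * 2 ^ ((k : ℝ) * d)) ^ σ) +
          2 ^ ((μ + n) * σ) *
          (run P k z * ((2 : ℝ≥0∞) ^ (-(min d (n - d) * σ))) ^ ((i - p z) + (p z - i)))) := by
        apply ENNReal.tsum_le_tsum
        intro z
        by_cases hz : run P k z = 0
        · rw [hz]; simp
        · obtain ⟨l, hl⟩ := exists_log hz
            (ne_top_of_le_ne_top ENNReal.one_ne_top (run_le_one P k z))
          have := theta_bound n d σ μ l hσ k (s z) (p z) i (hsp z) (hpeak z hz l hl)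
          rw [← hl] at this
          calc run P k z * (run P k z / (2 ^ n) ^ (sp i (s z) (p z)) *
                2 ^ (((k + i : ℕ) : ℝ) * d)) ^ σ
              ≤ run P k z * (2 ^ (-((n - d) * σ * i)) * (run P k z * 2 ^ ((k : ℝ) * d)) ^ σ +
                2 ^ ((μ + n) * σ) *
                ((2 : ℝ≥0∞) ^ (-(min d (n - d) * σ))) ^ ((i - p z) + (p z - i))) := by gcongr
            _ = _ := by ring
    _ = _ := by
        rw [ENNReal.tsum_add, ENNReal.tsum_mul_left, ENNReal.tsum_mul_left]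
        rfl

/-- Existence of the spreading time. -/
lemma exists_spread (n : ℕ) (d μ l : ℝ) (hd : 0 < d) (hdn : d < n) (k : ℕ) :
    ∃ p0 : ℕ, ∀ p ≥ p0, ∃ s ≤ p, μ ≤ l + (k + p) * d - n * s ∧
      l + (k + p) * d - n * s ≤ μ + n := by
  have hn : (0 : ℝ) < n := hd.trans hdn
  obtain ⟨a, ha⟩ := exists_nat_ge ((μ - l - k * d) / d)
  obtain ⟨b, hb⟩ := exists_nat_ge ((l + k * d - μ) / (n - d))
  refine ⟨max a b, fun p hp => ?_⟩
  have hpa : ((μ - l - k * d) / d) ≤ p := ha.trans (by exact_mod_cast (le_max_left a b).trans hp)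
  have hpb : ((l + k * d - μ) / (n - d)) ≤ p :=
    hb.trans (by exact_mod_cast (le_max_right a b).trans hp)
  rw [div_le_iff₀ hd] at hpa
  rw [div_le_iff₀ (by linarith)] at hpb
  set t : ℝ := (l + (k + p) * d - μ) / n with ht
  have ht0 : 0 ≤ t := div_nonneg (by linarith) hn.le
  have htn : t * n = l + (k + p) * d - μ := by rw [ht]; field_simp
  refine ⟨⌊t⌋₊, ?_, ?_, ?_⟩
  · have h1 : t ≤ p := by
      rw [ht, div_le_iff₀ hn]
      linarith
    exact_mod_cast (Nat.floor_le ht0).trans h1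
  · have := mul_le_mul_of_nonneg_left (Nat.floor_le ht0) hn.le
    linarith
  · have := mul_le_mul_of_nonneg_left (Nat.lt_floor_add_one t).le hn.le
    linarith

end Pool.Agent.H761R2.Besov
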