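import Mathlib

/-!
# Dyadic mass trees

Mass distributions on the tree of dyadic cubes of `ℝⁿ` (indexed, level by level, by `Fin n → ℤ`).
-/

set_option autoImplicit false

open scoped ENNReal
open Set

namespace Pool.Agent.H761R2.Besov

/-- Index of the dyadic cubes of a given level. -/
abbrev Idx (n : ℕ) := Fin n → ℤ

/-- The parent of a cube. -/
def par {n : ℕ} (z : Idx n) : Idx n := fun i => z i / 2

/-- The `e`-th child of a cube. -/
def child {n : ℕ} (v : Idx n) (e : Fin n → Fin 2) : Idx n := fun i => 2 * v i + (e i : ℕ)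

lemma par_child {n : ℕ} (v : Idx n) (e : Fin n → Fin 2) : par (child v e) = v := by
  funext i
  simp only [par, child]
  have := (e i).isLt
  omega

/-- The tree structure: a cube is a child of its parent. -/
def childEquiv (n : ℕ) : Idx n × (Fin n → Fin 2) ≃ Idx n where
  toFun p := child p.1 p.2
  invFun z := (par z, fun i => ⟨(z i % 2).toNat, by
    have h1 := Int.emod_nonneg (z i) (by norm_num : (2 : ℤ) ≠ 0)
    have h2 := Int.emod_lt_of_pos (z i) (by norm_num : (0 : ℤ) < 2)
    omega⟩)
  left_inv := by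
    rintro ⟨v, e⟩
    ext i
    · simp [par_child]
    · have := (e i).isLt
      simp only [child]
      have h : (2 * v i + ((e i : ℕ) : ℤ)) % 2 = ((e i : ℕ) : ℤ) := by omega
      rw [h]
      simp
  right_inv := by
    intro z
    funext i
    simp only [child, par]
    have h1 := Int.emod_nonneg (z i) (by norm_num : (2 : ℤ) ≠ 0)
    have : (((z i % 2).toNat : ℕ) : ℤ) = z i % 2 := Int.toNat_of_nonneg h1
    rw [this]
    omega

lemma tsum_children {n : ℕ} (f : Idx n → ℝ≥0∞) :
    ∑' z, f z = ∑' v, ∑ e : Fin n → Fin 2, f (child v e) := by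
  rw [← (childEquiv n).tsum_eq f, ENNReal.tsum_prod']
  congr 1
  funext v
  rw [tsum_fintype]
  rfl

open Classical in
/-- One step of the construction: cubes in `P` pass all their mass to one child, the others spread
it evenly over all children. -/
noncomputable def step {n : ℕ} (P : Set (Idx n)) (m : Idx n → ℝ≥0∞) (z : Idx n) : ℝ≥0∞ :=
  if par z ∈ P then (if z = child (par z) 0 then m (par z) else 0) else m (par z) / 2 ^ n

lemma child_inj {n : ℕ} (v : Idx n) {e e' : Fin n → Fin 2} (h : child v e = child v e') :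
    e = e' := by
  have := (childEquiv n).injective (a₁ := (v, e)) (a₂ := (v, e')) h
  simpa using this

lemma step_sum {n : ℕ} (P : Set (Idx n)) (m : Idx n → ℝ≥0∞) (v : Idx n) :
    ∑ e : Fin n → Fin 2, step P m (child v e) = m v := by
  classical
  unfold step
  by_cases hv : v ∈ P
  · simp only [par_child, hv, if_true]
    rw [Finset.sum_eq_single 0]
    · simp
    · intro e _ he
      rw [if_neg]
      intro h
      exact he (child_inj v h)
    · intro h; simp at h
  · simp only [par_child, hv, if_false]
    rw [Finset.sum_const, Finset.card_univ, Fintype.card_fun, Fintype.card_fin, Fintype.card_fin,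
      nsmul_eq_mul]
    push_cast
    rw [ENNReal.mul_div_cancel (by positivity) (by simp)]

/-- The masses at all levels. -/
noncomputable def run {n : ℕ} (P : ℕ → Set (Idx n)) : ℕ → Idx n → ℝ≥0∞
  | 0 => fun z => by classical exact if z = 0 then 1 else 0
  | k + 1 => step (P k) (run P k)

lemma run_succ {n : ℕ} (P : ℕ → Set (Idx n)) (k : ℕ) : run P (k + 1) = step (P k) (run P k) := rfl

lemma run_congr {n : ℕ} (P P' : ℕ → Set (Idx n)) (b : ℕ) (h : ∀ l < b, P l = P' l) :
    ∀ l ≤ b, run P l = run P' l := by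
  intro l
  induction l with
  | zero => intro _; rfl
  | succ k ih =>
    intro hk
    rw [run_succ, run_succ, ih (by omega), h k (by omega)]

lemma run_sum_par {n : ℕ} (P : ℕ → Set (Idx n)) (k : ℕ) (F : Idx n → ℝ≥0∞) :
    ∑' z, run P (k + 1) z * F (par z) = ∑' v, run P k v * F v := by
  rw [tsum_children]
  congr 1
  funext v
  simp only [par_child]
  rw [← Finset.sum_mul, run_succ, step_sum]

/-- The `i`-th ancestor. -/
def anc {n : ℕ} (i : ℕ) (z : Idx n) : Idx n := par^[i] z

lemma anc_zero {n : ℕ} (z : Idx n) : anc 0 z = z := rfl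

lemma anc_succ {n : ℕ} (i : ℕ) (z : Idx n) : anc (i + 1) z = anc i (par z) := rfl

lemma anc_add {n : ℕ} (i j : ℕ) (z : Idx n) : anc (i + j) z = anc i (anc j z) := by
  unfold anc
  rw [Function.iterate_add_apply]

lemma anc_apply {n : ℕ} (i : ℕ) (z : Idx n) (j : Fin n) : anc i z j = z j / 2 ^ i := by
  induction i generalizing z with
  | zero => simp [anc]
  | succ i ih =>
    rw [anc_succ, ih]
    simp only [par]
    rw [Int.ediv_ediv_of_nonneg (by norm_num)]
    congr 1
    ring

lemma run_sum_anc {n : ℕ} (P : ℕ → Set (Idx n)) (k i : ℕ) (F : Idx n → ℝ≥0∞) :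
    ∑' z, run P (k + i) z * F (anc i z) = ∑' v, run P k v * F v := by
  induction i with
  | zero => rfl
  | succ i ih =>
    rw [← ih]
    exact run_sum_par P (k + i) (fun z => F (anc i z))

lemma run_zero_sum {n : ℕ} (P : ℕ → Set (Idx n)) : ∑' z, run P 0 z = 1 := by
  classical
  rw [tsum_eq_single 0]
  · simp [run]
  · intro z hz; simp [run, hz]

lemma run_sum {n : ℕ} (P : ℕ → Set (Idx n)) (k : ℕ) : ∑' z, run P k z = 1 := by
  have := run_sum_anc P 0 k (fun _ => 1)
  simpa [run_zero_sum] using this

lemma run_le_one {n : ℕ} (P : ℕ → Set (Idx n)) (k : ℕ) (z : Idx n) : run P k z ≤ 1 := by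
  rw [← run_sum P k]
  exact ENNReal.le_tsum z

lemma run_par_ne_zero {n : ℕ} (P : ℕ → Set (Idx n)) (k : ℕ) (z : Idx n) (h : run P (k + 1) z ≠ 0) :
    run P k (par z) ≠ 0 := by
  classical
  intro h0
  apply h
  rw [run_succ]
  unfold step
  split_ifs <;> simp [h0]

lemma run_anc_ne_zero {n : ℕ} (P : ℕ → Set (Idx n)) (k i : ℕ) (z : Idx n)
    (h : run P (k + i) z ≠ 0) : run P k (anc i z) ≠ 0 := by
  induction i generalizing z with
  | zero => exact h
  | succ i ih =>
    rw [anc_succ]
    exact ih _ (run_par_ne_zero P (k + i) z h)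

lemma run_supp {n : ℕ} (P : ℕ → Set (Idx n)) (k : ℕ) (z : Idx n) (h : run P k z ≠ 0) :
    ∀ i, 0 ≤ z i ∧ z i < 2 ^ k := by
  classical
  intro i
  have h1 := run_anc_ne_zero P 0 k z (by simpa using h)
  have h2 : anc k z = 0 := by
    by_contra h3
    apply h1
    simp [run, h3]
  have h3 : z i / 2 ^ k = 0 := by rw [← anc_apply, h2]; rfl
  have h4 : (0 : ℤ) < 2 ^ k := by positivity
  constructor
  · by_contra hneg
    push Not at hneg
    have := Int.ediv_neg_of_neg_of_pos hneg h4
    omega
  · have := Int.lt_ediv_add_one_mul_self (z i) h4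
    rw [h3] at this
    simpa using this

lemma run_supp_finite {n : ℕ} (P : ℕ → Set (Idx n)) (k : ℕ) : {z | run P k z ≠ 0}.Finite := by
  apply (Set.finite_Icc (0 : Idx n) (fun _ => 2 ^ k)).subset
  intro z hz
  have := run_supp P k z hz
  exact ⟨fun i => (this i).1, fun i => (this i).2.le⟩

/-- the spreading bound on the masses -/
lemma run_spread_le {n : ℕ} (P : ℕ → Set (Idx n)) (k t : ℕ) (hP : ∀ i < t, P (k + i) = ∅)
    (z : Idx n) : run P (k + t) z = run P k (anc t z) / (2 ^ n) ^ t := by
  classical
  induction t generalizing z with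
  | zero => simp [anc]
  | succ t ih =>
    have h1 : run P (k + (t + 1)) z = run P (k + t) (par z) / 2 ^ n := by
      have : k + (t + 1) = (k + t) + 1 := by ring
      rw [this, run_succ]
      unfold step
      rw [hP t (by omega)]
      simp
    rw [h1, ih (fun i hi => hP i (by omega)), anc_succ, pow_succ,
      ENNReal.div_eq_inv_mul, ENNReal.div_eq_inv_mul, ENNReal.div_eq_inv_mul,
      ENNReal.mul_inv (by simp) (by simp)]
    ring

end Pool.Agent.H761R2.Besov
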