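import Pool.Agent.H761R2.Besov.Meas
import Pool.Agent.H761R2.Besov.Infinite2

/-!
# Uniform approximation and the lower bound
-/

set_option autoImplicit false

open scoped ENNReal Topology
open Set MeasureTheory Filter Metric

namespace Pool.Agent.H761R2.Besov

lemma sum_alt_choose {k : ℕ} (hk : 1 ≤ k) :
    ∑ j ∈ Finset.range (k + 1), (-1 : ℝ) ^ j * (k.choose j : ℝ) = 0 := by
  have := Int.alternating_sum_range_choose_of_ne (n := k) (by omega)
  exact_mod_cast this

lemma dl_small {n k : ℕ} (hk : 1 ≤ k) {u : EE n → ℝ} {δ ε : ℝ}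
    (hu : ∀ x y : EE n, dist x y ≤ δ → |u x - u y| ≤ ε) {h : EE n} (hh : k * ‖h‖ ≤ δ) (x : EE n) :
    |dl k h u x| ≤ 2 ^ k * ε := by
  have e : dl k h u x = ∑ j ∈ Finset.range (k + 1),
      (-1) ^ j * (k.choose j : ℝ) * (u (x + (j : ℝ) • h) - u x) := by
    simp_rw [mul_sub]
    rw [Finset.sum_sub_distrib, ← Finset.sum_mul, sum_alt_choose hk, zero_mul, sub_zero]
    rfl
  rw [e]
  calc |∑ j ∈ Finset.range (k + 1), (-1) ^ j * (k.choose j : ℝ) * (u (x + (j : ℝ) • h) - u x)|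
      ≤ ∑ j ∈ Finset.range (k + 1),
        |(-1) ^ j * (k.choose j : ℝ) * (u (x + (j : ℝ) • h) - u x)| :=
        Finset.abs_sum_le_sum_abs _ _
    _ ≤ ∑ j ∈ Finset.range (k + 1), (k.choose j : ℝ) * ε := by
        apply Finset.sum_le_sum
        intro j hj
        rw [abs_mul, abs_mul, abs_pow, abs_neg, abs_one, one_pow, one_mul, Nat.abs_cast]
        refine mul_le_mul_of_nonneg_left (hu _ _ ?_) (by positivity)
        rw [dist_eq_norm, add_sub_cancel_left, norm_smul, Real.norm_natCast]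
        refine le_trans ?_ hh
        have : (j : ℝ) ≤ k := by exact_mod_cast Nat.lt_succ_iff.1 (Finset.mem_range.1 hj)
        exact mul_le_mul_of_nonneg_right this (norm_nonneg h)
    _ = 2 ^ k * ε := by rw [← Finset.sum_mul, sum_choose_real]

lemma ae_lam {n : ℕ} : ∀ᵐ y ∂(lam n), ‖y‖ ≤ 1 := by
  unfold lam
  apply Measure.ae_smul_measure
  filter_upwards [ae_restrict_mem (measurableSet_Ann n)] with y hy
  exact hy.2

lemma GG_small {n k : ℕ} [NeZero n] (hk : 1 ≤ k) {u : EE n → ℝ} {δ ε : ℝ}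
    (hu : ∀ x y : EE n, dist x y ≤ δ → |u x - u y| ≤ ε) {t : ℝ} (ht0 : 0 < t) (ht : k * t ≤ δ)
    (x : EE n) : |GG k t u x| ≤ 2 ^ k * ε := by
  unfold GG
  have := norm_integral_le_of_norm_le_const (μ := lam n) (C := 2 ^ k * ε)
    (f := fun y => dl k (t • y) u x) (by
      filter_upwards [ae_lam] with y hy
      apply dl_small hk hu
      rw [norm_smul, Real.norm_eq_abs, abs_of_pos ht0]
      refine le_trans ?_ ht
      have : t * ‖y‖ ≤ t * 1 := mul_le_mul_of_nonneg_left hy ht0.le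
      have hk0 : (0 : ℝ) ≤ k := Nat.cast_nonneg k
      nlinarith)
  simpa using this

lemma RR_close {n k : ℕ} [NeZero n] (hk : 1 ≤ k) {u : EE n → ℝ} (hu : UniformContinuous u)
    {ε : ℝ} (hε : 0 < ε) : ∃ J0 : ℕ, ∀ J ≥ J0, ∀ x, |u x - RR k (tm J) u x| ≤ ε := by
  set ε' : ℝ := ε / (2 ^ k * 2 ^ k) with hε'
  have hε'0 : 0 < ε' := by positivity
  obtain ⟨δ, hδ, hd⟩ := Metric.uniformContinuous_iff.1 hu ε' hε'0
  have hu' : ∀ x y : EE n, dist x y ≤ δ / 2 → |u x - u y| ≤ ε' := by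
    intro x y hxy
    have := hd (a := x) (b := y) (by linarith)
    rw [Real.dist_eq] at this
    exact this.le
  have hk0 : (0 : ℝ) < k := by exact_mod_cast hk
  obtain ⟨J0, hJ0⟩ := exists_pow_lt_of_lt_one (show 0 < δ / 2 / k by positivity)
    (by norm_num : (1 / 2 : ℝ) < 1)
  refine ⟨J0, fun J hJ x => ?_⟩
  have htJ : k * tm J ≤ δ / 2 := by
    have h1 : tm J ≤ (1 / 2 : ℝ) ^ J0 := pow_le_pow_of_le_one (by norm_num) (by norm_num) hJ
    have h2 : tm J ≤ δ / 2 / k := h1.trans hJ0.le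
    rw [le_div_iff₀ hk0] at h2
    linarith
  have h1 : ∀ x, |GG k (tm J) u x| ≤ 2 ^ k * ε' := GG_small hk hu' (tm_pos J) htJ
  have e : u x - RR k (tm J) u x = GG k (tm J) (GG k (tm J) u) x := by unfold RR; ring
  rw [e]
  have h2 : |GG k (tm J) (GG k (tm J) u) x| ≤ 2 ^ k * (2 ^ k * ε') := by
    have := norm_integral_le_of_norm_le_const (μ := lam n) (C := 2 ^ k * (2 ^ k * ε'))
      (f := fun y => dl k (tm J • y) (GG k (tm J) u) x)
      (Eventually.of_forall fun y => dl_bound k _ h1 x)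
    rw [show GG k (tm J) (GG k (tm J) u) x =
      ∫ y, dl k (tm J • y) (GG k (tm J) u) x ∂(lam n) from rfl]
    simpa using this
  refine h2.trans (le_of_eq ?_)
  rw [hε']
  field_simp

lemma half_le {n k : ℕ} [NeZero n] (hk : 1 ≤ k) (P : ℕ → Set (Idx n)) {u : EE n → ℝ}
    (hu : Nice u) (huc : UniformContinuous u) (h1 : ∀ x ∈ KS P, 1 ≤ u x) :
    ∃ J : ℕ, (1 / 2 : ℝ≥0∞) ≤ ∫⁻ x, ‖RR k (tm J) u x‖ₑ ∂(μJ P J) := by
  obtain ⟨J0, hJ0⟩ := RR_close hk huc (show (0 : ℝ) < 1 / 4 by norm_num)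
  have hJ1 : ∃ J1, ∀ J ≥ J1, ∀ x ∈ KK P J, 3 / 4 < u x := by
    by_contra hcon
    push Not at hcon
    have hne : ∀ J, (KK P J ∩ {x | u x ≤ 3 / 4}).Nonempty := by
      intro J
      obtain ⟨J', hJ', x, hx, hxu⟩ := hcon J
      exact ⟨x, KK_antitone P hJ' hx, hxu⟩
    have hcl : IsClosed {x | u x ≤ 3 / 4} := isClosed_le hu.1 continuous_const
    have := IsCompact.nonempty_iInter_of_sequence_nonempty_isCompact_isClosed
      (fun J => KK P J ∩ {x | u x ≤ 3 / 4})
      (fun J => inter_subset_inter_left _ (KK_antitone P (Nat.le_succ J))) hne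
      ((KK_compact P 0).inter_right hcl)
      (fun J => (KK_compact P J).isClosed.inter hcl)
    obtain ⟨x, hx⟩ := this
    rw [mem_iInter] at hx
    have hxK : x ∈ KS P := mem_iInter.2 fun J => (hx J).1
    have := h1 x hxK
    have := (hx 0).2
    simp only [mem_ofPred_eq] at this
    linarith
  obtain ⟨J1, hJ1⟩ := hJ1
  refine ⟨max J0 J1, ?_⟩
  set J := max J0 J1 with hJ
  have hRc : Continuous (RR k (tm J) u) := hu.1.sub (GG_nice k _ (GG_nice k _ hu)).1
  rw [lintegral_μJ P J _ hRc.measurable.enorm]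
  calc (1 / 2 : ℝ≥0∞) = ∑' z, run P J z * (1 / 2) := by
        rw [ENNReal.tsum_mul_right, run_sum, one_mul]
    _ ≤ _ := by
        apply ENNReal.tsum_le_tsum
        intro z
        by_cases hz : run P J z = 0
        · rw [hz]; simp
        · refine mul_le_mul_right ?_ _
          have hmem : pt J z ∈ KK P J := by
            simp only [KK, mem_iUnion]
            exact ⟨z, hz, pt_mem_cube J z⟩
          have h2 := hJ1 J (le_max_right _ _) _ hmem
          have h3 := (abs_le.1 (hJ0 J (le_max_left _ _) (pt J z))).2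
          have h4 : (1 / 2 : ℝ) ≤ RR k (tm J) u (pt J z) := by linarith
          have h5 : (1 / 2 : ℝ≥0∞) = ENNReal.ofReal (1 / 2) := by
            rw [ENNReal.ofReal_div_of_pos (by norm_num)]
            simp
          rw [h5, ← ofReal_norm]
          apply ENNReal.ofReal_le_ofReal
          rw [Real.norm_eq_abs]
          exact h4.trans (le_abs_self _)

theorem lower_bound {n k : ℕ} [NeZero n] (hk : 1 ≤ k) {α p p' : ℝ} (hα : 0 < α)
    (hp : p.HolderConjugate p') {q : ℝ} (hq : 1 ≤ q) (hqp : q < p) (P : ℕ → Set (Idx n))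
    (hP : ∀ r : ℝ, 1 < r → ∑' m, X (n - α * p) (p' - 1) m (run P m) ^ r < ⊤) :
    ∃ C : ℝ≥0∞, C ≠ ⊤ ∧ ∀ u : EE n → ℝ, Nice u → UniformContinuous u → (∀ x ∈ KS P, 1 ≤ u x) →
      (1 / 2 : ℝ≥0∞) ≤ C * (Lp' p u + semi k α p q u ^ (1 / q)) := by
  have hp1 : 1 < p := hp.lt
  have hp'1 : 1 < p' := hp.symm.lt
  set q1 := (q + p) / 2 with hq1def
  have hq1gt : 1 < q1 := by rw [hq1def]; linarith
  have hqq : q ≤ q1 := by rw [hq1def]; linarith
  have hq1p : q1 < p := by rw [hq1def]; linarith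
  set q1' := q1 / (q1 - 1) with hq1'def
  have hq1 : q1.HolderConjugate q1' := Real.HolderConjugate.conjExponent hq1gt
  have hq1'0 : 0 < q1' := hq1.symm.pos
  have hr : 1 < q1' / p' := by
    rw [one_lt_div (by linarith)]
    have e : p' = p / (p - 1) := hp.conjugate_eq
    rw [e, hq1'def, div_lt_div_iff₀ (by linarith) (by linarith)]
    nlinarith
  set C3 := ((ENNReal.ofReal ((k : ℝ) ^ n) * volume (ball (0 : EE n) 1)) *
    ((Box n k).card : ℝ≥0∞) ^ p') with hC3
  have hC3t : C3 ≠ ⊤ := by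
    rw [hC3]
    apply ENNReal.mul_ne_top
    · exact ENNReal.mul_ne_top ENNReal.ofReal_ne_top measure_ball_lt_top.ne
    · exact ENNReal.rpow_ne_top_of_nonneg (by linarith) (by simp)
  set B := C3 ^ (q1' / p') * ∑' m, X (n - α * p) (p' - 1) m (run P m) ^ (q1' / p') with hB
  have hBt : B ≠ ⊤ := by
    rw [hB]
    apply ENNReal.mul_ne_top
    · exact ENNReal.rpow_ne_top_of_nonneg (by linarith) hC3t
    · exact (hP _ hr).ne
  set A1 := 2 ^ k * (κi n * volume (closedBall (0 : EE n) k) ^ (1 / p')) with hA1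
  have hA1t : A1 ≠ ⊤ := by
    rw [hA1]
    apply ENNReal.mul_ne_top (by simp)
    apply ENNReal.mul_ne_top (κi_ne_top n)
    exact ENNReal.rpow_ne_top_of_nonneg (by positivity) measure_closedBall_lt_top.ne
  set A2 := 2 * 2 ^ k * κi n * 2 ^ n with hA2
  have hA2t : A2 ≠ ⊤ := by
    rw [hA2]
    exact ENNReal.mul_ne_top (ENNReal.mul_ne_top (by simp [ENNReal.mul_ne_top]) (κi_ne_top n))
      (by simp)
  refine ⟨A1 * (1 + κi n ^ (1 / q)) + A2 * (2 * (κi n ^ (1 / q) * B ^ (1 / q1'))), ?_, ?_⟩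
  · have h1 : κi n ^ (1 / q) ≠ ⊤ :=
      ENNReal.rpow_ne_top_of_nonneg (by positivity) (κi_ne_top n)
    have h2 : B ^ (1 / q1') ≠ ⊤ := ENNReal.rpow_ne_top_of_nonneg (by positivity) hBt
    exact ENNReal.add_ne_top.2 ⟨ENNReal.mul_ne_top hA1t (ENNReal.add_ne_top.2 ⟨by simp, h1⟩),
      ENNReal.mul_ne_top hA2t (ENNReal.mul_ne_top (by simp) (ENNReal.mul_ne_top h1 h2))⟩
  · intro u hu huc h1
    obtain ⟨J, hJ⟩ := half_le hk P hu huc h1
    refine hJ.trans ?_
    refine (est k hp hq hqq hq1 (μJ P J) (by simp) hu hα J).trans ?_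
    have hBJ : ∑ m ∈ Finset.range J, bm k α p' (μJ P J) m ^ q1' ≤ B := by
      calc ∑ m ∈ Finset.range J, bm k α p' (μJ P J) m ^ q1'
          ≤ ∑ m ∈ Finset.range J, (C3 * X (n - α * p) (p' - 1) m (run P m)) ^ (q1' / p') := by
            apply Finset.sum_le_sum
            intro m hm
            have h2 := bm_pow_le P k J m (Finset.mem_range.1 hm).le (α := α) hp
            have h3 := ENNReal.rpow_le_rpow h2 (show 0 ≤ q1' / p' by positivity)
            rw [← ENNReal.rpow_mul, mul_div_cancel₀ _ (by linarith : p' ≠ 0)] at h3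
            exact h3
        _ = C3 ^ (q1' / p') * ∑ m ∈ Finset.range J,
              X (n - α * p) (p' - 1) m (run P m) ^ (q1' / p') := by
            rw [Finset.mul_sum]
            apply Finset.sum_congr rfl
            intro m _
            rw [ENNReal.mul_rpow_of_nonneg _ _ (by positivity)]
        _ ≤ B := mul_le_mul_right (ENNReal.sum_le_tsum _) _
    have hBJ' := ENNReal.rpow_le_rpow hBJ (show 0 ≤ 1 / q1' by positivity)
    have hmul : (κi n * semi k α p q u) ^ (1 / q) = κi n ^ (1 / q) * semi k α p q u ^ (1 / q) :=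
      ENNReal.mul_rpow_of_nonneg _ _ (by positivity)
    rw [hmul, ← hA1, ← hA2]
    set W := Lp' p u + semi k α p q u ^ (1 / q) with hW
    have hW1 : Lp' p u ≤ W := le_self_add
    have hW2 : semi k α p q u ^ (1 / q) ≤ W := le_add_self
    calc A1 * (Lp' p u + κi n ^ (1 / q) * semi k α p q u ^ (1 / q)) +
          A2 * (2 * (κi n ^ (1 / q) * semi k α p q u ^ (1 / q) *
            (∑ m ∈ Finset.range J, bm k α p' (μJ P J) m ^ q1') ^ (1 / q1')))
        ≤ A1 * (W + κi n ^ (1 / q) * W) + A2 * (2 * (κi n ^ (1 / q) * W * B ^ (1 / q1'))) := by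
          gcongr
      _ = _ := by ring

end Pool.Agent.H761R2.Besov
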